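import Pool.Agent.J4.H66.MG.Law

set_option autoImplicit false

/-! Random laws which are close to the gaussian law in probability. -/

namespace Pool.Agent.J4.H36.MG
open Finset Filter Topology Complex MeasureTheory ProbabilityTheory WithLp
open Pool.Agent.J4.H66.MG (emp emp_prob emp_char emp_Iic Phi Phi_cont Phi_mono Phi_surj Phi_mem)

/-- closeness on a finite grid gives uniform closeness -/
lemma grid (ε : ℝ) (hε : 0 < ε) : ∃ (S : Finset ℝ) (κ : ℝ), 0 < κ ∧ ∀ F : ℝ → ℝ, Monotone F → (∀ t, 0 ≤ F t) →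
    (∀ t, F t ≤ 1) → (∀ a ∈ S, |F a - Phi a| ≤ κ) → ∀ t, |F t - Phi t| ≤ ε := by
  obtain ⟨r, hr⟩ := exists_nat_gt (3 / ε)
  have hr0 : (0 : ℝ) < r := lt_trans (by positivity) hr
  have hrn : 0 < r := by exact_mod_cast hr0
  have hr2 : 3 / (r : ℝ) ≤ ε := by
    rw [div_le_iff₀ hr0]
    rw [div_lt_iff₀ hε] at hr
    linarith
  have ex : ∀ j : ℕ, ∃ u : ℝ, 0 < j → j < r → Phi u = j / r := by
    intro j
    by_cases hj : 0 < j ∧ j < r
    · obtain ⟨u, hu⟩ := Phi_surj (j / r) (div_pos (by exact_mod_cast hj.1) hr0)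
        (by rw [div_lt_one hr0]; exact_mod_cast hj.2)
      exact ⟨u, fun _ _ => hu⟩
    · exact ⟨0, fun h1 h2 => absurd ⟨h1, h2⟩ hj⟩
  choose u hu using ex
  refine ⟨(range r).image u, 1 / r, by positivity, fun F hm h0 h1 hF t => ?_⟩
  have hMm : ∀ j ∈ range r, |F (u j) - Phi (u j)| ≤ 1 / r := fun j hj => hF _ (mem_image_of_mem _ hj)
  obtain ⟨j, hj⟩ : ∃ j : ℕ, j = ⌊Phi t * r⌋₊ := ⟨_, rfl⟩
  have hP := Phi_mem t
  have hj1 : (j : ℝ) ≤ Phi t * r := by rw [hj]; exact Nat.floor_le (mul_nonneg hP.1 hr0.le)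
  have hj2 : Phi t * r < j + 1 := by rw [hj]; exact Nat.lt_floor_add_one _
  have hup : F t ≤ Phi t + 2 / r := by
    by_cases hjr : j + 1 < r
    · have h3 := hu (j + 1) (by omega) hjr
      have h4 := (abs_le.1 (hMm (j + 1) (mem_range.2 hjr))).2
      have h5 : t ≤ u (j + 1) := by
        by_contra hcon
        have := Phi_mono (not_le.1 hcon).le
        rw [h3] at this
        rw [div_le_iff₀ hr0] at this
        push_cast at this
        linarith
      have h6 := hm h5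
      rw [h3] at h4
      have h7 : (((j + 1 : ℕ) : ℝ)) / r ≤ Phi t + 1 / r := by
        push_cast
        rw [add_div]
        have : (j : ℝ) / r ≤ Phi t := by rwa [div_le_iff₀ hr0]
        linarith
      have : 2 / (r : ℝ) = 1 / r + 1 / r := by ring
      linarith
    · have h3 : (r : ℝ) ≤ j + 1 := by exact_mod_cast not_lt.1 hjr
      have h4 : 1 ≤ Phi t + 1 / r := by
        have h5 : (r : ℝ) - 1 ≤ Phi t * r := by linarith
        have h6 : ((r : ℝ) - 1) / r ≤ Phi t := by rwa [div_le_iff₀ hr0]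
        rw [sub_div, div_self hr0.ne'] at h6
        linarith
      have : 1 / (r : ℝ) ≤ 2 / r := by
        apply div_le_div_of_nonneg_right _ hr0.le
        norm_num
      linarith [h1 t]
  have hlow : Phi t - 3 / r ≤ F t := by
    have e3 : 3 / (r : ℝ) = 1 / r + 1 / r + 1 / r := by ring
    have p1 : 0 < 1 / (r : ℝ) := by positivity
    by_cases hj0 : 2 ≤ j
    · have hjr : j - 1 < r := by
        have : (j : ℝ) ≤ r := hj1.trans (mul_le_of_le_one_left hr0.le hP.2)
        have : j ≤ r := by exact_mod_cast this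
        omega
      have hc : ((j - 1 : ℕ) : ℝ) = j - 1 := by
        rw [Nat.cast_sub (by omega)]
        simp
      have h3 := hu (j - 1) (by omega) hjr
      have h4 := (abs_le.1 (hMm (j - 1) (mem_range.2 hjr))).1
      have h5 : u (j - 1) ≤ t := by
        by_contra hcon
        have := Phi_mono (not_le.1 hcon).le
        rw [h3, hc, le_div_iff₀ hr0] at this
        linarith
      have h6 := hm h5
      rw [h3, hc, sub_div] at h4
      have h7 : Phi t ≤ (j : ℝ) / r + 1 / r := by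
        rw [← add_div, le_div_iff₀ hr0]
        exact hj2.le
      linarith
    · have h3 : (j : ℝ) ≤ 1 := by exact_mod_cast (by omega : j ≤ 1)
      have h4 : Phi t ≤ 2 / r := by
        rw [le_div_iff₀ hr0]
        linarith
      have : 2 / (r : ℝ) = 1 / r + 1 / r := by ring
      linarith [h0 t]
  have h23 : 2 / (r : ℝ) ≤ 3 / r := by
    apply div_le_div_of_nonneg_right _ hr0.le
    norm_num
  rw [abs_le]
  constructor <;> linarith

/-- the characteristic function of the law of `Z` on `A` -/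
noncomputable def ch (A : Finset ℕ) (Z : ℕ → ℝ) (τ : ℝ) : ℂ := (∑ n ∈ A, cexp (((τ * Z n : ℝ) : ℂ) * I)) / #A

/-- the distribution function of the law of `Z` on `A` -/
noncomputable def df (A : Finset ℕ) (Z : ℕ → ℝ) (t : ℝ) : ℝ := (#{n ∈ A | Z n ≤ t} : ℝ) / #A

lemma df_emp (A : Finset ℕ) (Z : ℕ → ℝ) (t : ℝ) : df A Z t = (emp A Z).real (Set.Iic t) := (emp_Iic A Z t).symm

lemma ch_emp (A : Finset ℕ) (Z : ℕ → ℝ) (τ : ℝ) : ch A Z τ = charFun (emp A Z) τ := (emp_char A Z τ).symm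

lemma df_mono (A : Finset ℕ) (Z : ℕ → ℝ) : Monotone (df A Z) := by
  intro s t hst
  unfold df
  apply div_le_div_of_nonneg_right _ (by positivity)
  exact_mod_cast card_le_card (fun n hn => by
    rw [mem_filter] at hn ⊢
    exact ⟨hn.1, hn.2.trans hst⟩)

lemma df_nonneg (A : Finset ℕ) (Z : ℕ → ℝ) (t : ℝ) : 0 ≤ df A Z t := by
  unfold df
  positivity

lemma df_le_one (A : Finset ℕ) (Z : ℕ → ℝ) (t : ℝ) : df A Z t ≤ 1 := by
  unfold df
  apply div_le_one_of_le₀ _ (by positivity)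
  exact_mod_cast card_le_card (filter_subset _ _)

/-- the joint law of two independent points, averaged over `D` -/
noncomputable def jl (Ω : Finset (Finset ℕ)) (w : Finset ℕ → ℝ) (A : Finset ℕ) (Z : Finset ℕ → ℕ → ℝ) :
    Measure (WithLp 2 (ℝ × ℝ)) :=
  ∑ D ∈ Ω, ENNReal.ofReal (w D) • (((emp A (Z D)).prod (emp A (Z D))).map (toLp 2))

lemma toLp_meas : Measurable (toLp 2 : ℝ × ℝ → WithLp 2 (ℝ × ℝ)) := by
  exact (MeasurableEquiv.toLp 2 (ℝ × ℝ)).measurable

lemma jl_apply (Ω : Finset (Finset ℕ)) (w : Finset ℕ → ℝ) (hw : ∀ D ∈ Ω, 0 ≤ w D) (A : Finset ℕ) (hA : A.Nonempty)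
    (Z : Finset ℕ → ℕ → ℝ) (S T : Set ℝ) (hS : MeasurableSet S) (hT : MeasurableSet T) :
    (jl Ω w A Z).real (ofLp ⁻¹' (S ×ˢ T)) = ∑ D ∈ Ω, w D * ((emp A (Z D)).real S * (emp A (Z D)).real T) := by
  have hp : ∀ D, IsProbabilityMeasure (emp A (Z D)) := fun D => emp_prob A hA (Z D)
  have hm : MeasurableSet (ofLp ⁻¹' (S ×ˢ T) : Set (WithLp 2 (ℝ × ℝ))) :=
    (MeasurableEquiv.toLp 2 (ℝ × ℝ)).symm.measurable (hS.prod hT)
  unfold jl Measure.real
  rw [Measure.coe_finsetSum, Finset.sum_apply]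
  rw [ENNReal.toReal_sum]
  · apply sum_congr rfl
    intro D hD
    rw [Measure.smul_apply, smul_eq_mul, Measure.map_apply toLp_meas hm, ENNReal.toReal_mul,
      ENNReal.toReal_ofReal (hw D hD)]
    have : (toLp 2 : ℝ × ℝ → WithLp 2 (ℝ × ℝ)) ⁻¹' (ofLp ⁻¹' (S ×ˢ T)) = S ×ˢ T := rfl
    rw [this, Measure.prod_prod, ENNReal.toReal_mul]
  · intro D _
    rw [Measure.smul_apply, smul_eq_mul]
    apply ENNReal.mul_ne_top ENNReal.ofReal_ne_top
    have : IsProbabilityMeasure (((emp A (Z D)).prod (emp A (Z D))).map (toLp 2)) :=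
      Measure.isProbabilityMeasure_map toLp_meas.aemeasurable
    exact measure_ne_top _ _

lemma jl_prob (Ω : Finset (Finset ℕ)) (w : Finset ℕ → ℝ) (hw : ∀ D ∈ Ω, 0 ≤ w D) (hw1 : ∑ D ∈ Ω, w D = 1)
    (A : Finset ℕ) (hA : A.Nonempty) (Z : Finset ℕ → ℕ → ℝ) : IsProbabilityMeasure (jl Ω w A Z) := by
  have hp : ∀ D, IsProbabilityMeasure (emp A (Z D)) := fun D => emp_prob A hA (Z D)
  constructor
  unfold jl
  rw [Measure.coe_finsetSum, Finset.sum_apply]
  have : ∀ D ∈ Ω, (ENNReal.ofReal (w D) • (((emp A (Z D)).prod (emp A (Z D))).map (toLp 2))) Set.univ =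
      ENNReal.ofReal (w D) := by
    intro D _
    have : IsProbabilityMeasure (((emp A (Z D)).prod (emp A (Z D))).map (toLp 2)) :=
      Measure.isProbabilityMeasure_map toLp_meas.aemeasurable
    rw [Measure.smul_apply, measure_univ, smul_eq_mul, mul_one]
  rw [sum_congr rfl this, ← ENNReal.ofReal_sum_of_nonneg hw, hw1, ENNReal.ofReal_one]

lemma jl_char (Ω : Finset (Finset ℕ)) (w : Finset ℕ → ℝ) (hw : ∀ D ∈ Ω, 0 ≤ w D) (A : Finset ℕ) (hA : A.Nonempty)
    (Z : Finset ℕ → ℕ → ℝ) (x : WithLp 2 (ℝ × ℝ)) :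
    charFun (jl Ω w A Z) x = ∑ D ∈ Ω, (w D : ℂ) * (ch A (Z D) (ofLp x).1 * ch A (Z D) (ofLp x).2) := by
  have hp : ∀ D, IsProbabilityMeasure (emp A (Z D)) := fun D => emp_prob A hA (Z D)
  rw [charFun_apply]
  unfold jl
  rw [integral_finsetSum_measure]
  · apply sum_congr rfl
    intro D hD
    rw [integral_smul_measure, ENNReal.toReal_ofReal (hw D hD), Complex.real_smul]
    congr 1
    rw [← charFun_apply, charFun_prod, ch_emp, ch_emp]
  · intro D _
    have : IsProbabilityMeasure (((emp A (Z D)).prod (emp A (Z D))).map (toLp 2)) :=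
      Measure.isProbabilityMeasure_map toLp_meas.aemeasurable
    apply Integrable.smul_measure _ ENNReal.ofReal_ne_top
    refine (integrable_const (1 : ℝ)).mono' ?_ ?_
    · apply Continuous.aestronglyMeasurable
      fun_prop
    · filter_upwards with y
      rw [Complex.norm_exp_ofReal_mul_I]

/-- If the product of the characteristic functions at two points, averaged over `D`, converges to the product of the
gaussian ones, then the laws are close to the gaussian law for most `D`. -/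
lemma law2 (Ω : ℕ → Finset (Finset ℕ)) (w : ℕ → Finset ℕ → ℝ) (hw : ∀ m, ∀ D ∈ Ω m, 0 ≤ w m D)
    (hw1 : ∀ m, ∑ D ∈ Ω m, w m D = 1) (A : ℕ → Finset ℕ) (hA : ∀ m, (A m).Nonempty) (Z : ℕ → Finset ℕ → ℕ → ℝ)
    (h : ∀ s t : ℝ, Tendsto (fun m => ∑ D ∈ Ω m, (w m D : ℂ) * (ch (A m) (Z m D) s * ch (A m) (Z m D) t)) atTop
      (𝓝 ((Real.exp (-((s ^ 2 + t ^ 2) / 2)) : ℝ) : ℂ))) (ε : ℝ) (hε : 0 < ε) :
    ∃ M : ℕ, ∀ m ≥ M, ∑ D ∈ Ω m, (open Classical in if ∀ t, |df (A m) (Z m D) t - Phi t| ≤ ε then 0 else w m D) ≤ ε := by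
  classical
  obtain ⟨P, hP⟩ : ∃ P : ℕ → ProbabilityMeasure (WithLp 2 (ℝ × ℝ)), ∀ m, (P m : Measure (WithLp 2 (ℝ × ℝ))) =
      jl (Ω m) (w m) (A m) (Z m) :=
    ⟨fun m => ⟨_, jl_prob (Ω m) (w m) (hw m) (hw1 m) (A m) (hA m) (Z m)⟩, fun m => rfl⟩
  have hGp : IsProbabilityMeasure (((gaussianReal 0 1).prod (gaussianReal 0 1)).map
      (toLp 2 : ℝ × ℝ → WithLp 2 (ℝ × ℝ))) := Measure.isProbabilityMeasure_map toLp_meas.aemeasurable
  obtain ⟨G, hG⟩ : ∃ G : ProbabilityMeasure (WithLp 2 (ℝ × ℝ)), (G : Measure (WithLp 2 (ℝ × ℝ))) =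
      ((gaussianReal 0 1).prod (gaussianReal 0 1)).map (toLp 2) := ⟨⟨_, hGp⟩, rfl⟩
  have hlim : Tendsto P atTop (𝓝 G) := by
    refine ProbabilityMeasure.tendsto_of_tendsto_charFun fun x => ?_
    have e1 : charFun (G : Measure (WithLp 2 (ℝ × ℝ))) x =
        ((Real.exp (-(((ofLp x).1 ^ 2 + (ofLp x).2 ^ 2) / 2)) : ℝ) : ℂ) := by
      rw [hG, charFun_prod, charFun_gaussianReal, charFun_gaussianReal, ← Complex.exp_add]
      push_cast
      congr 1
      ring
    rw [e1]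
    simp only [hP]
    have e2 : ∀ m, charFun (jl (Ω m) (w m) (A m) (Z m)) x = ∑ D ∈ Ω m, (w m D : ℂ) *
        (ch (A m) (Z m D) (ofLp x).1 * ch (A m) (Z m D) (ofLp x).2) :=
      fun m => jl_char (Ω m) (w m) (hw m) (A m) (hA m) (Z m) x
    simp only [e2]
    exact h _ _
  have hns : ∀ a : ℝ, gaussianReal 0 1 (frontier (Set.Iic a)) = 0 := by
    intro a
    have := nullSingletonClass_gaussianReal (μ := 0) (v := 1) one_ne_zero
    rw [frontier_Iic]
    simp
  have hset : ∀ S T : Set ℝ, MeasurableSet S → MeasurableSet T → gaussianReal 0 1 (frontier S) = 0 →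
      gaussianReal 0 1 (frontier T) = 0 →
      Tendsto (fun m => ∑ D ∈ Ω m, w m D * ((emp (A m) (Z m D)).real S * (emp (A m) (Z m D)).real T)) atTop
      (𝓝 ((gaussianReal 0 1).real S * (gaussianReal 0 1).real T)) := by
    intro S T hS hT hfS hfT
    have hm : MeasurableSet (ofLp ⁻¹' (S ×ˢ T) : Set (WithLp 2 (ℝ × ℝ))) :=
      (MeasurableEquiv.toLp 2 (ℝ × ℝ)).symm.measurable (hS.prod hT)
    have hfr : (G : Measure (WithLp 2 (ℝ × ℝ))) (frontier (ofLp ⁻¹' (S ×ˢ T))) = 0 := by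
      have e1 : frontier (ofLp ⁻¹' (S ×ˢ T) : Set (WithLp 2 (ℝ × ℝ))) = ofLp ⁻¹' (frontier (S ×ˢ T)) :=
        ((WithLp.homeomorphProd 2 ℝ ℝ).preimage_frontier (S ×ˢ T)).symm
      rw [e1, frontier_prod_eq, hG, Measure.map_apply toLp_meas]
      · have e2 : (toLp 2 : ℝ × ℝ → WithLp 2 (ℝ × ℝ)) ⁻¹' (ofLp ⁻¹' (closure S ×ˢ frontier T ∪ frontier S ×ˢ closure T)) =
          closure S ×ˢ frontier T ∪ frontier S ×ˢ closure T := rfl
        rw [e2]
        apply measure_union_null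
        · rw [Measure.prod_prod, hfT, mul_zero]
        · rw [Measure.prod_prod, hfS, zero_mul]
      · apply (MeasurableEquiv.toLp 2 (ℝ × ℝ)).symm.measurable
        apply MeasurableSet.union
        · exact isClosed_closure.measurableSet.prod isClosed_frontier.measurableSet
        · exact isClosed_frontier.measurableSet.prod isClosed_closure.measurableSet
    have h1 := ProbabilityMeasure.tendsto_measure_of_null_frontier_of_tendsto' hlim (E := ofLp ⁻¹' (S ×ˢ T)) hfr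
    have h2 := (ENNReal.tendsto_toReal (measure_ne_top (G : Measure (WithLp 2 (ℝ × ℝ))) (ofLp ⁻¹' (S ×ˢ T)))).comp h1
    have e3 : ((G : Measure (WithLp 2 (ℝ × ℝ))) (ofLp ⁻¹' (S ×ˢ T))).toReal =
        (gaussianReal 0 1).real S * (gaussianReal 0 1).real T := by
      rw [hG, Measure.map_apply toLp_meas hm]
      have : (toLp 2 : ℝ × ℝ → WithLp 2 (ℝ × ℝ)) ⁻¹' (ofLp ⁻¹' (S ×ˢ T)) = S ×ˢ T := rfl
      rw [this, Measure.prod_prod, ENNReal.toReal_mul]
      rfl
    rw [e3] at h2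
    refine h2.congr (fun m => ?_)
    have := jl_apply (Ω m) (w m) (hw m) (A m) (hA m) (Z m) S T hS hT
    rw [← this]
    simp only [Function.comp, hP]
    rfl
  -- the variance
  have hvar : ∀ a : ℝ, Tendsto (fun m => ∑ D ∈ Ω m, w m D * (df (A m) (Z m D) a - Phi a) ^ 2) atTop (𝓝 0) := by
    intro a
    have g1 := hset (Set.Iic a) (Set.Iic a) measurableSet_Iic measurableSet_Iic (hns a) (hns a)
    have g2 := hset (Set.Iic a) Set.univ measurableSet_Iic MeasurableSet.univ (hns a) (by simp)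
    have hpm : ∀ m D, (emp (A m) (Z m D)).real Set.univ = 1 := by
      intro m D
      have := emp_prob (A m) (hA m) (Z m D)
      simp
    simp only [hpm, mul_one] at g2
    have hg1 : (gaussianReal 0 1).real Set.univ = 1 := by simp
    rw [hg1, mul_one] at g2
    have g3 := (g1.sub (g2.const_mul (2 * Phi a))).add_const (Phi a ^ 2)
    have e0 : (gaussianReal 0 1).real (Set.Iic a) * (gaussianReal 0 1).real (Set.Iic a) -
        2 * Phi a * (gaussianReal 0 1).real (Set.Iic a) + Phi a ^ 2 = 0 := by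
      change Phi a * Phi a - 2 * Phi a * Phi a + Phi a ^ 2 = 0
      ring
    rw [e0] at g3
    refine g3.congr (fun m => ?_)
    have e1 : Phi a ^ 2 = ∑ D ∈ Ω m, w m D * Phi a ^ 2 := by rw [← sum_mul, hw1 m, one_mul]
    rw [e1, mul_sum, ← sum_sub_distrib, ← sum_add_distrib]
    apply sum_congr rfl
    intro D _
    rw [df_emp]
    ring
  obtain ⟨S, κ, hκ, hS⟩ := grid ε hε
  have hsum : Tendsto (fun m => ∑ a ∈ S, (1 / κ ^ 2) * ∑ D ∈ Ω m, w m D * (df (A m) (Z m D) a - Phi a) ^ 2) atTop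
      (𝓝 0) := by
    have := tendsto_finsetSum S (fun a _ => (hvar a).const_mul (1 / κ ^ 2))
    simpa using this
  obtain ⟨M, hM⟩ := (Metric.tendsto_atTop.1 hsum) ε hε
  refine ⟨M, fun m hm => ?_⟩
  have h1 := hM m hm
  rw [Real.dist_eq, sub_zero] at h1
  refine le_trans ?_ ((le_abs_self _).trans h1.le)
  have e1 : ∑ a ∈ S, (1 / κ ^ 2) * ∑ D ∈ Ω m, w m D * (df (A m) (Z m D) a - Phi a) ^ 2 =
      ∑ D ∈ Ω m, w m D * ∑ a ∈ S, (df (A m) (Z m D) a - Phi a) ^ 2 / κ ^ 2 := by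
    simp only [mul_sum]
    rw [sum_comm]
    apply sum_congr rfl
    intro D _
    apply sum_congr rfl
    intro a _
    ring
  rw [e1]
  apply sum_le_sum
  intro D hD
  split_ifs with hc
  · exact mul_nonneg (hw m D hD) (sum_nonneg (fun a _ => by positivity))
  · apply le_mul_of_one_le_right (hw m D hD)
    have hex : ∃ a ∈ S, κ < |df (A m) (Z m D) a - Phi a| := by
      by_contra hcon
      push Not at hcon
      exact hc (hS _ (df_mono _ _) (df_nonneg _ _) (df_le_one _ _) hcon)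
    obtain ⟨a, haS, ha⟩ := hex
    calc (1 : ℝ) ≤ (df (A m) (Z m D) a - Phi a) ^ 2 / κ ^ 2 := by
          rw [one_le_div (by positivity), ← sq_abs (df (A m) (Z m D) a - Phi a)]
          exact pow_le_pow_left₀ hκ.le ha.le 2
      _ ≤ _ := single_le_sum (f := fun a => (df (A m) (Z m D) a - Phi a) ^ 2 / κ ^ 2)
          (fun a _ => by positivity) haS

end Pool.Agent.J4.H36.MG
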