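import Pool.Agent.J4.H36.MG.Pairs
import Pool.Agent.J4.H36.MG.Law2

set_option autoImplicit false

/-! The Gaussian law for the centred sums over random subsets. -/

namespace Pool.Agent.J4.H36.MG
open Finset Filter Topology Complex
open Pool.Agent.J4.H66.MG (mu mu_abs cc cc_pos cc_half cc_one sg Phi)

/-- for almost all pairs of windows the two centred sums are jointly gaussian over the random subset -/
lemma main_est (ε V : ℝ) (hε : 0 < ε) (hV0 : 0 ≤ V) (T γ : ℝ) (hT : 1 ≤ T) (hγ : 0 < γ) :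
    ∃ K : ℝ, 1 ≤ K ∧ ∀ p : ℝ, 0 < p → p < 1 → ∀ H : ℕ, K ≤ p * (1 - p) * H → ∀ X ≥ H, ∀ f : ℕ → ℝ, (∀ d, |f d| ≤ 1) →
    ∑ d ∈ Ico 1 H, |f (d + 1) - f d| ≤ V → ε ≤ sg H f → ∀ s t : ℝ, |s| ≤ T → |t| ≤ T →
    (#{P ∈ Icc X (2 * X) ×ˢ Icc X (2 * X) |
      ¬ ‖ED p H (fun D => cexp (((s * ZD p H f D P.1 + t * ZD p H f D P.2 : ℝ) : ℂ) * I)) -
      ((Real.exp (-((s ^ 2 + t ^ 2) / 2)) : ℝ) : ℂ)‖ ≤ γ} : ℝ) ≤ γ * (X : ℝ) ^ 2 := by
  classical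
  obtain ⟨δ, hδ⟩ : ∃ δ : ℝ, δ = min γ (γ * ε / (8 * T ^ 2)) := ⟨_, rfl⟩
  have hT0 : 0 < T := by linarith
  have hδ0 : 0 < δ := by rw [hδ]; positivity
  have hδ1 : δ ≤ γ := by rw [hδ]; exact min_le_left _ _
  have hδ2 : 4 * T ^ 2 * δ / ε ≤ γ / 2 := by
    have : δ ≤ γ * ε / (8 * T ^ 2) := by rw [hδ]; exact min_le_right _ _
    rw [le_div_iff₀ (by positivity)] at this
    rw [div_le_div_iff₀ hε (by norm_num)]
    linarith
  obtain ⟨H₀, hH₀, h1⟩ := good δ V hδ0 hV0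
  obtain ⟨R, hR⟩ : ∃ R : ℝ, R = max (2 * T) (64 * T ^ 3 / (ε * γ)) := ⟨_, rfl⟩
  have hR1 : 2 * T ≤ R := by rw [hR]; exact le_max_left _ _
  have hR2 : 64 * T ^ 3 / (ε * γ) ≤ R := by rw [hR]; exact le_max_right _ _
  have hR0 : 0 < R := by linarith
  refine ⟨max (max 1 (H₀ : ℝ)) (2 * R ^ 2 / ε), (le_max_left _ _).trans (le_max_left _ _), fun p hp0 hp1 H hH X hX f hf hV hsg s t hs ht => ?_⟩
  have hK1 : 1 ≤ p * (1 - p) * H := ((le_max_left _ _).trans (le_max_left _ _)).trans hH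
  have hK2 : (H₀ : ℝ) ≤ p * (1 - p) * H := ((le_max_right _ _).trans (le_max_left _ _)).trans hH
  have hK3 : 2 * R ^ 2 / ε ≤ p * (1 - p) * H := (le_max_right _ _).trans hH
  have hq : 0 < 1 - p := by linarith
  have hpq : p * (1 - p) ≤ 1 := by nlinarith
  have hHr : p * (1 - p) * H ≤ H := mul_le_of_le_one_left (by positivity) hpq
  have hH0 : H₀ ≤ H := by exact_mod_cast hK2.trans hHr
  have hH1 : 1 ≤ H := by omega
  have hHp : (0 : ℝ) < H := by exact_mod_cast hH1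
  have hcc := cc_pos
  have hden : R ≤ den p H f := by
    unfold den
    apply Real.le_sqrt_of_sq_le
    rw [div_le_iff₀ hε] at hK3
    have h2 : p * (1 - p) * (1 / 2 * (H * ε)) ≤ p * (1 - p) * (cc * (H * sg H f)) := by
      apply mul_le_mul_of_nonneg_left _ (by positivity)
      exact mul_le_mul cc_half (mul_le_mul_of_nonneg_left hsg hHp.le) (by positivity) hcc.le
    nlinarith
  have hden0 : 0 < den p H f := lt_of_lt_of_le hR0 hden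
  refine le_trans ?_ ((h1 H hH0 X hX f hf hV).trans (mul_le_mul_of_nonneg_right hδ1 (by positivity)))
  apply Nat.cast_le.2
  apply card_le_card
  intro P hP
  rw [mem_filter] at hP ⊢
  refine ⟨hP.1, fun hg => hP.2 ?_⟩
  have h2 := pair_est p hp0 hp1 H hH1 f hf ε hε hsg T hT (hR1.trans hden) δ hδ0.le P hg s t hs ht
  refine h2.trans ?_
  have h3 : 32 * T ^ 3 / (ε * den p H f) ≤ γ / 2 := by
    rw [div_le_iff₀ (by positivity)] at hR2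
    rw [div_le_div_iff₀ (by positivity) (by norm_num)]
    have := mul_le_mul_of_nonneg_right hden (by positivity : 0 ≤ ε * γ)
    linarith
  linarith

/-- the average over all the pairs of a dense set, with weights -/
lemma avg_est (ε V : ℝ) (hε : 0 < ε) (hV0 : 0 ≤ V) (T γ : ℝ) (hT : 1 ≤ T) (hγ : 0 < γ) :
    ∃ K : ℝ, 1 ≤ K ∧ ∀ p : ℝ, 0 < p → p < 1 → ∀ H : ℕ, K ≤ p * (1 - p) * H → ∀ X ≥ H, ∀ f : ℕ → ℝ, (∀ d, |f d| ≤ 1) →
    ∑ d ∈ Ico 1 H, |f (d + 1) - f d| ≤ V → ε ≤ sg H f → ∀ A ⊆ Icc X (2 * X), ε * X ≤ #A →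
    ∀ G : ℕ → ℕ → ℂ, (∀ n n', ‖G n n'‖ ≤ 1) → ∀ s t : ℝ, |s| ≤ T → |t| ≤ T →
    ‖(∑ n ∈ A, ∑ n' ∈ A, G n n' * ED p H (fun D => cexp (((s * ZD p H f D n + t * ZD p H f D n' : ℝ) : ℂ) * I))) / (#A : ℂ) ^ 2 -
      ((Real.exp (-((s ^ 2 + t ^ 2) / 2)) : ℝ) : ℂ) * ((∑ n ∈ A, ∑ n' ∈ A, G n n') / (#A : ℂ) ^ 2)‖ ≤ γ := by
  classical
  obtain ⟨γ', hγ'⟩ : ∃ γ' : ℝ, γ' = γ / (1 + 2 / ε ^ 2) := ⟨_, rfl⟩
  have hγ'0 : 0 < γ' := by rw [hγ']; positivity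
  obtain ⟨K, hK1, h1⟩ := main_est ε V hε hV0 T γ' hT hγ'0
  refine ⟨K, hK1, fun p hp0 hp1 H hH X hX f hf hV hsg A hA hAc G hG s t hs ht => ?_⟩
  have h2 := h1 p hp0 hp1 H hH X hX f hf hV hsg s t hs ht
  have hq : 0 < 1 - p := by linarith
  have hpq : p * (1 - p) ≤ 1 := by nlinarith
  have hHr : p * (1 - p) * H ≤ H := mul_le_of_le_one_left (by positivity) hpq
  have hH1 : 1 ≤ H := by
    have : (1 : ℝ) ≤ H := (hK1.trans hH).trans hHr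
    exact_mod_cast this
  have hX0 : (0 : ℝ) < X := by exact_mod_cast (by omega : 0 < X)
  have hA0 : (0 : ℝ) < #A := lt_of_lt_of_le (by positivity) hAc
  have hAc0 : ((#A : ℝ) : ℂ) ≠ 0 := by exact_mod_cast hA0.ne'
  obtain ⟨w, hw⟩ : ∃ w : ℂ, w = ((Real.exp (-((s ^ 2 + t ^ 2) / 2)) : ℝ) : ℂ) := ⟨_, rfl⟩
  have hw1 : ‖w‖ ≤ 1 := by
    rw [hw, Complex.norm_real, Real.norm_of_nonneg (Real.exp_pos _).le, Real.exp_le_one_iff]
    have : 0 ≤ (s ^ 2 + t ^ 2) / 2 := by positivity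
    linarith
  obtain ⟨E, hE⟩ : ∃ E : ℕ × ℕ → ℂ, ∀ P, E P = ED p H (fun D => cexp (((s * ZD p H f D P.1 + t * ZD p H f D P.2 : ℝ) : ℂ) * I)) :=
    ⟨_, fun _ => rfl⟩
  have hE1 : ∀ P, ‖E P‖ ≤ 1 := by
    intro P
    rw [hE]
    apply ED_norm p hp0.le hp1.le
    intro D
    rw [Complex.norm_exp_ofReal_mul_I]
  rw [← hw] at h2 ⊢
  simp only [← hE] at h2
  have e1 : (∑ n ∈ A, ∑ n' ∈ A, G n n' * ED p H (fun D => cexp (((s * ZD p H f D n + t * ZD p H f D n' : ℝ) : ℂ) * I))) / (#A : ℂ) ^ 2 -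
      w * ((∑ n ∈ A, ∑ n' ∈ A, G n n') / (#A : ℂ) ^ 2) =
      (∑ P ∈ A ×ˢ A, G P.1 P.2 * (E P - w)) / ((#A : ℝ) : ℂ) ^ 2 := by
    rw [sum_product]
    have : ∀ n ∈ A, ∀ n' ∈ A, G n n' * (E (n, n') - w) = G n n' * ED p H (fun D => cexp (((s * ZD p H f D n + t * ZD p H f D n' : ℝ) : ℂ) * I)) -
        w * G n n' := by
      intro n _ n' _
      rw [hE]
      ring
    rw [sum_congr rfl (fun n hn => sum_congr rfl (fun n' hn' => this n hn n' hn'))]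
    simp only [sum_sub_distrib, ← mul_sum]
    push_cast
    ring
  rw [e1, norm_div, norm_pow, Complex.norm_real, Real.norm_of_nonneg hA0.le, div_le_iff₀ (by positivity)]
  have h3 : ∀ P ∈ A ×ˢ A, ‖G P.1 P.2 * (E P - w)‖ ≤ γ' + (if ¬ ‖E P - w‖ ≤ γ' then 2 else 0) := by
    intro P _
    rw [norm_mul]
    have h4 : ‖G P.1 P.2‖ * ‖E P - w‖ ≤ ‖E P - w‖ := mul_le_of_le_one_left (norm_nonneg _) (hG _ _)
    by_cases h5 : ‖E P - w‖ ≤ γ'
    · rw [if_neg (not_not.2 h5)]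
      linarith
    · rw [if_pos h5]
      have : ‖E P - w‖ ≤ 2 := (norm_sub_le _ _).trans (by linarith [hE1 P])
      linarith
  refine (norm_sum_le _ _).trans ((sum_le_sum h3).trans ?_)
  rw [sum_add_distrib, ← sum_filter, sum_const, sum_const, nsmul_eq_mul, nsmul_eq_mul, card_product]
  have h6 : (#{P ∈ A ×ˢ A | ¬ ‖E P - w‖ ≤ γ'} : ℝ) ≤ γ' * (X : ℝ) ^ 2 := by
    refine le_trans ?_ h2
    apply Nat.cast_le.2
    apply card_le_card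
    apply filter_subset_filter
    exact product_subset_product hA hA
  have h7 : (X : ℝ) ^ 2 ≤ (#A : ℝ) ^ 2 / ε ^ 2 := by
    rw [le_div_iff₀ (by positivity), ← mul_pow]
    apply pow_le_pow_left₀ (by positivity)
    linarith
  have h8 : γ' * (1 + 2 / ε ^ 2) = γ := by
    rw [hγ']
    field_simp
  calc ((#A * #A : ℕ) : ℝ) * γ' + (#{P ∈ A ×ˢ A | ¬ ‖E P - w‖ ≤ γ'} : ℝ) * 2 ≤
      (#A : ℝ) ^ 2 * γ' + (γ' * ((#A : ℝ) ^ 2 / ε ^ 2)) * 2 := by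
        have h9 := mul_le_mul_of_nonneg_left h7 hγ'0.le
        push_cast
        have h10 : (#A : ℝ) * #A = (#A : ℝ) ^ 2 := by ring
        rw [h10]
        linarith
    _ = (γ' * (1 + 2 / ε ^ 2)) * (#A : ℝ) ^ 2 := by ring
    _ = γ * (#A : ℝ) ^ 2 := by rw [h8]

/-- the average of the product of two characteristic functions -/
lemma ch_mul (p : ℝ) (H : ℕ) (A : Finset ℕ) (Z : Finset ℕ → ℕ → ℝ) (s t : ℝ) :
    ∑ D ∈ (Icc 1 H).powerset, (wt p H D : ℂ) * (ch A (Z D) s * ch A (Z D) t) =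
    (∑ n ∈ A, ∑ n' ∈ A, ED p H (fun D => cexp (((s * Z D n + t * Z D n' : ℝ) : ℂ) * I))) / (#A : ℂ) ^ 2 := by
  unfold ED ch
  have e1 : ∀ D ∈ (Icc 1 H).powerset, (wt p H D : ℂ) * ((∑ n ∈ A, cexp (((s * Z D n : ℝ) : ℂ) * I)) / #A *
      ((∑ n ∈ A, cexp (((t * Z D n : ℝ) : ℂ) * I)) / #A)) =
      (∑ n ∈ A, ∑ n' ∈ A, (wt p H D : ℂ) * cexp (((s * Z D n + t * Z D n' : ℝ) : ℂ) * I)) / (#A : ℂ) ^ 2 := by
    intro D _
    rw [div_mul_div_comm, sum_mul_sum, mul_div_assoc', mul_sum, sq]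
    congr 1
    apply sum_congr rfl
    intro n _
    rw [mul_sum]
    apply sum_congr rfl
    intro n' _
    rw [← Complex.exp_add]
    congr 2
    push_cast
    ring
  rw [sum_congr rfl e1, ← sum_div]
  congr 1
  rw [sum_comm]
  apply sum_congr rfl
  intro n _
  rw [sum_comm]

/-- the law of the centred sum on any dense set, for almost all the subsets -/
theorem partA (ε V : ℝ) (hε : 0 < ε) (hV0 : 0 ≤ V) : ∃ K : ℕ, ∀ p : ℝ, 0 < p → p < 1 → ∀ H : ℕ, K ≤ p * (1 - p) * H → ∀ X ≥ H,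
    ∀ f : ℕ → ℝ, (∀ d, |f d| ≤ 1) → ∑ d ∈ Ico 1 H, |f (d + 1) - f d| ≤ V → ε ≤ sg H f →
    ∀ A ⊆ Icc X (2 * X), ε * X ≤ #A →
    ∑ D ∈ (Icc 1 H).powerset, (open Classical in if ∀ t, |df A (ZD p H f D) t - Phi t| ≤ ε then 0 else wt p H D) ≤ ε := by
  by_contra hcon
  push Not at hcon
  have hc : ∀ m : ℕ, ∃ p : ℝ, 0 < p ∧ p < 1 ∧ ∃ H : ℕ, ((m + 1 : ℕ) : ℝ) ≤ p * (1 - p) * H ∧ ∃ X ≥ H, ∃ f : ℕ → ℝ,
      (∀ d, |f d| ≤ 1) ∧ ∑ d ∈ Ico 1 H, |f (d + 1) - f d| ≤ V ∧ ε ≤ sg H f ∧ ∃ A ⊆ Icc X (2 * X), ε * X ≤ #A ∧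
      ε < ∑ D ∈ (Icc 1 H).powerset, (open Classical in if ∀ t, |df A (ZD p H f D) t - Phi t| ≤ ε then 0 else wt p H D) :=
    fun m => hcon (m + 1)
  choose p hp0 hp1 H hH X hX f hf hV hsg A hA hAc hbad using hc
  have hm1 : ∀ m : ℕ, (1 : ℝ) ≤ ((m + 1 : ℕ) : ℝ) := fun m => by push_cast; linarith [(Nat.cast_nonneg m : (0 : ℝ) ≤ m)]
  have hXp : ∀ m, (0 : ℝ) < X m := by
    intro m
    have h1 := (hm1 m).trans (hH m)
    have h2 : p m * (1 - p m) ≤ 1 := by nlinarith [hp0 m, hp1 m]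
    have h3 : p m * (1 - p m) * H m ≤ H m := mul_le_of_le_one_left (by positivity) h2
    have h4 : (H m : ℝ) ≤ X m := by exact_mod_cast hX m
    linarith
  have hAn : ∀ m, (A m).Nonempty := by
    intro m
    rw [← card_pos]
    have h1 := hXp m
    have h2 : (0 : ℝ) < #(A m) := lt_of_lt_of_le (by positivity) (hAc m)
    exact_mod_cast h2
  obtain ⟨M, hM⟩ := law2 (fun m => (Icc 1 (H m)).powerset) (fun m => wt (p m) (H m))
    (fun m D _ => wt_nonneg _ (hp0 m).le (hp1 m).le _ _) (fun m => wt_sum _ _) A hAn (fun m D => ZD (p m) (H m) (f m) D) (by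
      intro s t
      rw [Metric.tendsto_atTop]
      intro γ hγ
      obtain ⟨T, hT⟩ : ∃ T : ℝ, T = 1 + |s| + |t| := ⟨_, rfl⟩
      have hs0 := abs_nonneg s
      have ht0 := abs_nonneg t
      obtain ⟨K, hK1, hK⟩ := avg_est ε V hε hV0 T (γ / 2) (by linarith) (by positivity)
      obtain ⟨N, hN⟩ := exists_nat_gt K
      refine ⟨N, fun m hm => ?_⟩
      have hmN : (N : ℝ) ≤ ((m + 1 : ℕ) : ℝ) := by exact_mod_cast (by omega : N ≤ m + 1)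
      have h1 := hK (p m) (hp0 m) (hp1 m) (H m) (by linarith [hH m]) (X m) (hX m) (f m) (hf m) (hV m) (hsg m) (A m)
        (hA m) (hAc m) (fun _ _ => 1) (by simp) s t (by linarith) (by linarith)
      rw [ch_mul, dist_eq_norm]
      have hA0 : ((#(A m) : ℕ) : ℂ) ≠ 0 := by
        have := (card_pos.2 (hAn m)).ne'
        exact_mod_cast this
      simp only [one_mul, sum_const, nsmul_eq_mul, mul_one] at h1
      rw [show ((#(A m) : ℂ) * (#(A m) : ℂ)) / (#(A m) : ℂ) ^ 2 = 1 by field_simp, mul_one] at h1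
      linarith) ε hε
  exact absurd (hM M le_rfl) (not_le.2 (hbad M))

end Pool.Agent.J4.H36.MG
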