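import Pool.Agent.J4.H36.MG.Win
import Pool.Agent.J4.H36.MG.Main

set_option autoImplicit false

/-! The Gaussian law for the whole windows and for random subsets of the windows. -/

namespace Pool.Agent.J4.H36.MG
open Finset Filter Topology Complex MeasureTheory ProbabilityTheory
open Pool.Agent.J4.H66.MG (mu mu_abs cc cc_pos sg Phi Phi_cdf)

/-- the normalisation of the problem -/
noncomputable def nrm (H : ℝ) : ℝ := Real.sqrt (H / (Real.pi ^ 2 / 6))

lemma nrm_pos (H : ℝ) (hH : 0 < H) : 0 < nrm H := by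
  unfold nrm
  positivity

/-- the law of the normalised sum for a real centre uniform in `[X, 2X]` -/
noncomputable def RPm (X H : ℝ) : Measure ℝ :=
  (ENNReal.ofReal X)⁻¹ • ((volume.restrict (Set.Icc X (2 * X))).map (fun x => Wk (⌊2 * X + H⌋₊ + 1) H x / nrm H))

lemma Wk_div_meas (K : ℕ) (H : ℝ) : Measurable (fun x => Wk K H x / nrm H) := (Wk_meas K H).div_const _

lemma RPm_prob (X H : ℝ) (hX : 0 < X) : IsProbabilityMeasure (RPm X H) := by
  constructor
  unfold RPm
  rw [Measure.smul_apply, Measure.map_apply (Wk_div_meas _ _) MeasurableSet.univ, Set.preimage_univ,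
    Measure.restrict_apply_univ, Real.volume_Icc, smul_eq_mul]
  have : 2 * X - X = X := by ring
  rw [this]
  exact ENNReal.inv_mul_cancel (by simpa using hX) ENNReal.ofReal_ne_top

/-- the law as a probability measure -/
noncomputable def RP (X H : ℝ) : ProbabilityMeasure ℝ :=
  ⟨RPm (max X 1) H, RPm_prob _ _ (lt_of_lt_of_le one_pos (le_max_right _ _))⟩

lemma RP_coe (X H : ℝ) (hX : 1 ≤ X) : (RP X H : Measure ℝ) = RPm X H := by
  have h1 : (RP X H : Measure ℝ) = RPm (max X 1) H := rfl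
  rw [h1, max_eq_left hX]

lemma RP_Iic (X H t : ℝ) (hX : 1 ≤ X) (hH : 0 ≤ H) :
    (volume {x : ℝ | x ∈ Set.Icc X (2 * X) ∧
      (∑ n ∈ (Finset.range (⌊x + H⌋₊ + 1)).filter (fun n : ℕ => |(n : ℝ) - x| < H / 2),
        ((ArithmeticFunction.moebius n : ℤ) : ℝ)) / Real.sqrt (H / (Real.pi ^ 2 / 6)) ≤ t}).toReal / X =
    (RP X H : Measure ℝ).real (Set.Iic t) := by
  rw [RP_coe X H hX]
  unfold RPm Measure.real
  rw [Measure.smul_apply, Measure.map_apply (Wk_div_meas _ _) measurableSet_Iic, Measure.restrict_apply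
    ((Wk_div_meas _ _) measurableSet_Iic), smul_eq_mul, ENNReal.toReal_mul, ENNReal.toReal_inv,
    ENNReal.toReal_ofReal (by linarith), div_eq_inv_mul]
  congr 3
  ext x
  simp only [Set.mem_ofPred_eq, Set.mem_inter_iff, Set.mem_preimage, Set.mem_Iic]
  constructor
  · rintro ⟨h1, h2⟩
    refine ⟨?_, h1⟩
    rw [← Wf_eq_Wk _ x H (2 * X) hH h1.2 le_rfl]
    exact h2
  · rintro ⟨h1, h2⟩
    refine ⟨h2, ?_⟩
    rw [← Wf_eq_Wk _ x H (2 * X) hH h2.2 le_rfl] at h1
    exact h1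

lemma RP_char (X H τ : ℝ) (hX : 1 ≤ X) :
    charFun (RP X H : Measure ℝ) τ =
      (∫ x in X..2 * X, cexp (((τ * (Wk (⌊2 * X + H⌋₊ + 1) H x / nrm H) : ℝ) : ℂ) * I)) / (X : ℂ) := by
  rw [RP_coe X H hX, charFun_apply_real]
  unfold RPm
  rw [integral_smul_measure, integral_map (Wk_div_meas _ _).aemeasurable, ENNReal.toReal_inv,
    ENNReal.toReal_ofReal (by linarith), Complex.real_smul, integral_Icc_eq_integral_Ioc,
    ← intervalIntegral.integral_of_le (by linarith), div_eq_inv_mul]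
  · push_cast
    rfl
  · apply Continuous.aestronglyMeasurable
    fun_prop

lemma cmp (X H τ : ℝ) (hX : 1 ≤ X) (hH : 1 ≤ H) (hHX : H ≤ X) :
    ‖charFun (RP X H : Measure ℝ) τ - ch (Icc ⌊X⌋₊ (2 * ⌊X⌋₊)) (fun n => ML ⌊H⌋₊ n / nrm H) τ‖ ≤
      2 * |τ| / nrm H + (H + 3) / X := by
  have hX0 : 0 < X := by linarith
  have hn := nrm_pos H (by linarith)
  obtain ⟨h, hh⟩ : ∃ h : ℕ → ℂ, ∀ n, h n = cexp (((τ * (ML ⌊H⌋₊ n / nrm H) : ℝ) : ℂ) * I) := ⟨_, fun _ => rfl⟩
  have hh1 : ∀ n, ‖h n‖ ≤ 1 := by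
    intro n
    rw [hh, Complex.norm_exp_ofReal_mul_I]
  have e1 : ch (Icc ⌊X⌋₊ (2 * ⌊X⌋₊)) (fun n => ML ⌊H⌋₊ n / nrm H) τ =
      (∑ n ∈ Icc ⌊X⌋₊ (2 * ⌊X⌋₊), h n) / (#(Icc ⌊X⌋₊ (2 * ⌊X⌋₊)) : ℂ) := by
    unfold ch
    simp only [hh]
  have h2 := int_cmp h hh1 X H (by linarith) hX
  rw [RP_char X H τ hX, e1]
  have h3 : ‖(∫ x in X..2 * X, cexp (((τ * (Wk (⌊2 * X + H⌋₊ + 1) H x / nrm H) : ℝ) : ℂ) * I)) / (X : ℂ) -
      (∫ x in X..2 * X, h ⌊x - H / 2⌋₊) / (X : ℂ)‖ ≤ 2 * |τ| / nrm H := by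
    rw [← sub_div, norm_div, Complex.norm_real, Real.norm_of_nonneg hX0.le, div_le_iff₀ hX0,
      ← intervalIntegral.integral_sub]
    · have h4 := intervalIntegral.norm_integral_le_of_norm_le_const (a := X) (b := 2 * X) (C := 2 * |τ| / nrm H)
        (f := fun x => cexp (((τ * (Wk (⌊2 * X + H⌋₊ + 1) H x / nrm H) : ℝ) : ℂ) * I) - h ⌊x - H / 2⌋₊) (by
          intro x hx
          rw [Set.uIoc_of_le (by linarith)] at hx
          rw [hh]
          refine (exp_lip _ _).trans ?_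
          rw [← Wf_eq_Wk _ x H (2 * X) (by linarith) hx.2 le_rfl, ← mul_sub, ← sub_div, abs_mul, abs_div, abs_of_pos hn]
          have h5 := win x H hH (by linarith [hx.1])
          rw [mul_comm 2 |τ|, mul_div_assoc]
          apply mul_le_mul_of_nonneg_left _ (abs_nonneg _)
          exact div_le_div_of_nonneg_right h5 hn.le)
      have : |2 * X - X| = X := by
        rw [abs_of_nonneg (by linarith)]
        ring
      rwa [this] at h4
    · have hm : Measurable (fun x : ℝ => cexp (((τ * (Wk (⌊2 * X + H⌋₊ + 1) H x / nrm H) : ℝ) : ℂ) * I)) := by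
        have h6 := Wk_div_meas (⌊2 * X + H⌋₊ + 1) H
        apply Complex.measurable_exp.comp
        apply Measurable.mul_const
        exact Complex.measurable_ofReal.comp (h6.const_mul τ)
      refine ⟨?_, ?_⟩
      · exact Integrable.mono' (integrable_const (1 : ℝ)) hm.aestronglyMeasurable
          (Eventually.of_forall fun y => by rw [Complex.norm_exp_ofReal_mul_I])
      · exact Integrable.mono' (integrable_const (1 : ℝ)) hm.aestronglyMeasurable
          (Eventually.of_forall fun y => by rw [Complex.norm_exp_ofReal_mul_I])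
    · have hm : Measurable (fun x : ℝ => h ⌊x - H / 2⌋₊) :=
        ((measurable_from_nat (f := h)).comp Nat.measurable_floor).comp (measurable_id.sub_const _)
      refine ⟨?_, ?_⟩
      · exact Integrable.mono' (integrable_const (1 : ℝ)) hm.aestronglyMeasurable (Eventually.of_forall fun y => hh1 _)
      · exact Integrable.mono' (integrable_const (1 : ℝ)) hm.aestronglyMeasurable (Eventually.of_forall fun y => hh1 _)
  exact (norm_sub_le_norm_sub_add_norm_sub _ _ _).trans (add_le_add h3 h2)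

/-- the Gaussian law for real centres, in terms of characteristic functions over the integers -/
lemma gc_iff (H : ℝ → ℝ) (h1 : Tendsto H atTop atTop) (h2 : Tendsto (fun X => H X / X) atTop (𝓝 0)) :
    (∀ t : ℝ, Tendsto (fun X : ℝ => (volume {x : ℝ | x ∈ Set.Icc X (2 * X) ∧
      (∑ n ∈ (Finset.range (⌊x + H X⌋₊ + 1)).filter (fun n : ℕ => |(n : ℝ) - x| < H X / 2),
        ((ArithmeticFunction.moebius n : ℤ) : ℝ)) / Real.sqrt (H X / (Real.pi ^ 2 / 6)) ≤ t}).toReal / X) atTop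
        (𝓝 (cdf (gaussianReal 0 1) t))) ↔
    ∀ τ : ℝ, Tendsto (fun X : ℝ => ch (Icc ⌊X⌋₊ (2 * ⌊X⌋₊)) (fun n => ML ⌊H X⌋₊ n / nrm (H X)) τ) atTop
      (𝓝 ((Real.exp (-(τ ^ 2 / 2)) : ℝ) : ℂ)) := by
  have hP : ∀ t : ℝ, cdf (gaussianReal 0 1) t = Phi t := fun t => by rw [Phi_cdf]
  have hev : ∀ᶠ X : ℝ in atTop, 1 ≤ X ∧ 1 ≤ H X ∧ H X ≤ X := by
    have a1 := eventually_ge_atTop (1 : ℝ)
    have a2 := h1.eventually_ge_atTop 1
    have a3 := h2.eventually (gt_mem_nhds (zero_lt_one' ℝ))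
    filter_upwards [a1, a2, a3] with X b1 b2 b3
    refine ⟨b1, b2, ?_⟩
    rw [div_lt_one (by linarith)] at b3
    exact b3.le
  have hcong : ∀ t : ℝ, (fun X : ℝ => (volume {x : ℝ | x ∈ Set.Icc X (2 * X) ∧
      (∑ n ∈ (Finset.range (⌊x + H X⌋₊ + 1)).filter (fun n : ℕ => |(n : ℝ) - x| < H X / 2),
        ((ArithmeticFunction.moebius n : ℤ) : ℝ)) / Real.sqrt (H X / (Real.pi ^ 2 / 6)) ≤ t}).toReal / X) =ᶠ[atTop]
      (fun X => (RP X (H X) : Measure ℝ).real (Set.Iic t)) := by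
    intro t
    filter_upwards [hev] with X hX
    exact RP_Iic X (H X) t hX.1 (by linarith [hX.2.1])
  have hdiff : ∀ τ : ℝ, Tendsto (fun X : ℝ => charFun (RP X (H X) : Measure ℝ) τ -
      ch (Icc ⌊X⌋₊ (2 * ⌊X⌋₊)) (fun n => ML ⌊H X⌋₊ n / nrm (H X)) τ) atTop (𝓝 0) := by
    intro τ
    have hnt : Tendsto (fun X => nrm (H X)) atTop atTop := by
      unfold nrm
      refine Real.tendsto_sqrt_atTop.comp (h1.atTop_div_const (by positivity))
    have b1 : Tendsto (fun X => 2 * |τ| / nrm (H X)) atTop (𝓝 0) := hnt.const_div_atTop _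
    have b2 : Tendsto (fun X : ℝ => (H X + 3) / X) atTop (𝓝 0) := by
      have : Tendsto (fun X : ℝ => H X / X + 3 / X) atTop (𝓝 (0 + 0)) := h2.add (tendsto_const_nhds.div_atTop tendsto_id)
      rw [add_zero] at this
      refine this.congr (fun X => ?_)
      ring
    have b3 := b1.add b2
    rw [add_zero] at b3
    refine squeeze_zero_norm' ?_ b3
    filter_upwards [hev] with X hX
    exact cmp X (H X) τ hX.1 hX.2.1 hX.2.2
  constructor
  · intro h τ
    have w1 : Tendsto (fun X => RP X (H X)) atTop (𝓝 GG) := by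
      apply cdf_weak
      intro t
      have := h t
      rw [hP] at this
      exact this.congr' (hcong t)
    have w2 := (weak_char _ _ w1 τ).sub (hdiff τ)
    simpa using w2
  · intro h t
    have w1 : Tendsto (fun X => RP X (H X)) atTop (𝓝 GG) := by
      apply char_weak
      intro τ
      have := (h τ).add (hdiff τ)
      simpa using this
    rw [hP]
    exact (weak_cdf _ _ w1 t).congr' (hcong t).symm

end Pool.Agent.J4.H36.MG
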