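import Mathlib

set_option autoImplicit false

/-! The characteristic function of a sum over a random subset. -/

namespace Pool.Agent.J4.H36.MG
open Finset Complex

/-- the probability of a subset `D` of `{1, ..., H}`, if every element is taken with probability `p` -/
noncomputable def wt (p : ℝ) (H : ℕ) (D : Finset ℕ) : ℝ := p ^ #D * (1 - p) ^ (H - #D)

lemma wt_nonneg (p : ℝ) (hp0 : 0 ≤ p) (hp1 : p ≤ 1) (H : ℕ) (D : Finset ℕ) : 0 ≤ wt p H D := by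
  unfold wt
  have : 0 ≤ 1 - p := by linarith
  positivity

lemma wt_sum (p : ℝ) (H : ℕ) : ∑ D ∈ (Icc 1 H).powerset, wt p H D = 1 := by
  unfold wt
  have h := Finset.sum_pow_mul_eq_add_pow p (1 - p) (Icc 1 H)
  simp only [Nat.card_Icc, add_tsub_cancel_right] at h
  rw [h]
  simp

lemma prodform (p : ℝ) (H : ℕ) (u : ℕ → ℝ) :
    ∑ D ∈ (Icc 1 H).powerset, (wt p H D : ℂ) *
      cexp (((∑ d ∈ D, u d - p * ∑ d ∈ Icc 1 H, u d : ℝ) : ℂ) * I) =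
    ∏ d ∈ Icc 1 H, ((p : ℂ) * cexp ((((1 - p) * u d : ℝ) : ℂ) * I) +
      ((1 - p : ℝ) : ℂ) * cexp (((-(p * u d) : ℝ) : ℂ) * I)) := by
  classical
  rw [Finset.prod_add]
  apply sum_congr rfl
  intro D hD
  rw [mem_powerset] at hD
  have hc : #(Icc 1 H \ D) = H - #D := by
    rw [card_sdiff_of_subset hD]
    simp
  rw [prod_mul_distrib, prod_mul_distrib, prod_const, prod_const, hc, ← Complex.exp_sum, ← Complex.exp_sum]
  have e1 : (∑ d ∈ D, u d - p * ∑ d ∈ Icc 1 H, u d : ℝ) =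
      ∑ d ∈ D, (1 - p) * u d + ∑ d ∈ Icc 1 H \ D, (-(p * u d)) := by
    rw [← sum_sdiff hD, sum_neg_distrib, ← mul_sum, ← mul_sum]
    ring
  rw [e1]
  unfold wt
  push_cast
  rw [add_mul, Complex.exp_add, sum_mul, sum_mul]
  ring

lemma exp_taylor (x : ℝ) (hx : |x| ≤ 1) :
    ‖cexp ((x : ℂ) * I) - (1 + (x : ℂ) * I - (x : ℂ) ^ 2 / 2)‖ ≤ |x| ^ 3 := by
  have h := Complex.exp_bound (x := (x : ℂ) * I) (by simpa using hx) (n := 3) (by norm_num)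
  have e : ∑ m ∈ range 3, ((x : ℂ) * I) ^ m / (m.factorial : ℂ) = 1 + (x : ℂ) * I - (x : ℂ) ^ 2 / 2 := by
    have h2 : ((x : ℂ) * I) ^ 2 = -(x : ℂ) ^ 2 := by rw [mul_pow, I_sq]; ring
    simp only [sum_range_succ, range_zero, sum_empty]
    rw [h2]
    simp [Nat.factorial]
    ring
  rw [e] at h
  refine h.trans ?_
  have e2 : ‖(x : ℂ) * I‖ = |x| := by simp
  rw [e2]
  have h3 : (0 : ℝ) ≤ |x| ^ 3 := by positivity
  norm_num [Nat.factorial]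
  nlinarith

/-- the characteristic function of a centred Bernoulli variable -/
lemma factor_est (p : ℝ) (hp0 : 0 ≤ p) (hp1 : p ≤ 1) (u : ℝ) (hu : |u| ≤ 1) :
    ‖((p : ℂ) * cexp ((((1 - p) * u : ℝ) : ℂ) * I) + ((1 - p : ℝ) : ℂ) * cexp (((-(p * u) : ℝ) : ℂ) * I)) -
      ((Real.exp (-(p * (1 - p) * u ^ 2 / 2)) : ℝ) : ℂ)‖ ≤ 2 * (p * (1 - p)) * |u| ^ 3 := by
  have hq : 0 ≤ 1 - p := by linarith
  have a0 := abs_nonneg u
  have h1 := exp_taylor ((1 - p) * u) (by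
    rw [abs_mul, abs_of_nonneg hq]; nlinarith)
  have h2 := exp_taylor (-(p * u)) (by
    rw [abs_neg, abs_mul, abs_of_nonneg hp0]; nlinarith)
  have hy0 : 0 ≤ p * (1 - p) * u ^ 2 / 2 := by positivity
  have hpq : p * (1 - p) ≤ 1 := by nlinarith
  have hpq0 : 0 ≤ p * (1 - p) := by positivity
  have hu2 : u ^ 2 ≤ 1 := by rw [← sq_abs]; exact pow_le_one₀ a0 hu
  have hy1 : p * (1 - p) * u ^ 2 / 2 ≤ 1 := by nlinarith [sq_nonneg u]
  obtain ⟨y, hy⟩ : ∃ y : ℝ, y = p * (1 - p) * u ^ 2 / 2 := ⟨_, rfl⟩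
  have h3 : |Real.exp (-y) - (1 - y)| ≤ y ^ 2 := by
    have h := Real.abs_exp_sub_one_sub_id_le (x := -y) (by rw [abs_neg, abs_of_nonneg (by rw [hy]; exact hy0), hy]; exact hy1)
    have e : Real.exp (-y) - 1 - -y = Real.exp (-y) - (1 - y) := by ring
    rw [e] at h
    simpa using h
  have key : ((p : ℂ) * cexp ((((1 - p) * u : ℝ) : ℂ) * I) + ((1 - p : ℝ) : ℂ) * cexp (((-(p * u) : ℝ) : ℂ) * I)) -
      ((Real.exp (-(p * (1 - p) * u ^ 2 / 2)) : ℝ) : ℂ) =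
      (p : ℂ) * (cexp ((((1 - p) * u : ℝ) : ℂ) * I) - (1 + (((1 - p) * u : ℝ) : ℂ) * I - (((1 - p) * u : ℝ) : ℂ) ^ 2 / 2)) +
      ((1 - p : ℝ) : ℂ) * (cexp (((-(p * u) : ℝ) : ℂ) * I) - (1 + ((-(p * u) : ℝ) : ℂ) * I - ((-(p * u) : ℝ) : ℂ) ^ 2 / 2)) -
      ((Real.exp (-y) - (1 - y) : ℝ) : ℂ) := by
    rw [hy]
    push_cast
    ring
  rw [key]
  refine (norm_sub_le _ _).trans ?_
  have t1 : ‖(p : ℂ) * (cexp ((((1 - p) * u : ℝ) : ℂ) * I) - (1 + (((1 - p) * u : ℝ) : ℂ) * I - (((1 - p) * u : ℝ) : ℂ) ^ 2 / 2))‖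
      ≤ p * (|(1 - p) * u| ^ 3) := by
    rw [norm_mul, Complex.norm_real, Real.norm_of_nonneg hp0]
    exact mul_le_mul_of_nonneg_left h1 hp0
  have t2 : ‖((1 - p : ℝ) : ℂ) * (cexp (((-(p * u) : ℝ) : ℂ) * I) - (1 + ((-(p * u) : ℝ) : ℂ) * I - ((-(p * u) : ℝ) : ℂ) ^ 2 / 2))‖
      ≤ (1 - p) * (|-(p * u)| ^ 3) := by
    rw [norm_mul, Complex.norm_real, Real.norm_of_nonneg hq]
    exact mul_le_mul_of_nonneg_left h2 hq
  have t3 : ‖((Real.exp (-y) - (1 - y) : ℝ) : ℂ)‖ ≤ y ^ 2 := by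
    rw [Complex.norm_real]
    exact h3
  have t12 := (norm_add_le ((p : ℂ) * (cexp ((((1 - p) * u : ℝ) : ℂ) * I) - (1 + (((1 - p) * u : ℝ) : ℂ) * I - (((1 - p) * u : ℝ) : ℂ) ^ 2 / 2)))
    (((1 - p : ℝ) : ℂ) * (cexp (((-(p * u) : ℝ) : ℂ) * I) - (1 + ((-(p * u) : ℝ) : ℂ) * I - ((-(p * u) : ℝ) : ℂ) ^ 2 / 2)))).trans (add_le_add t1 t2)
  refine (add_le_add t12 t3).trans ?_
  rw [abs_mul, abs_neg, abs_mul, abs_of_nonneg hp0, abs_of_nonneg hq, mul_pow, mul_pow]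
  have u3 : 0 ≤ |u| ^ 3 := by positivity
  have b1 : (1 - p) ^ 3 ≤ (1 - p) ^ 2 := pow_le_pow_of_le_one hq (by linarith) (by norm_num)
  have b2 : p ^ 3 ≤ p ^ 2 := pow_le_pow_of_le_one hp0 hp1 (by norm_num)
  have c1 : p * ((1 - p) ^ 3 * |u| ^ 3) + (1 - p) * (p ^ 3 * |u| ^ 3) ≤ p * (1 - p) * |u| ^ 3 := by
    have : p * (1 - p) ^ 3 + (1 - p) * p ^ 3 ≤ p * (1 - p) := by
      have e : p * (1 - p) - (p * (1 - p) ^ 3 + (1 - p) * p ^ 3) = 2 * (p * (1 - p)) ^ 2 := by ring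
      nlinarith [sq_nonneg (p * (1 - p))]
    nlinarith
  have c2 : y ^ 2 ≤ p * (1 - p) * |u| ^ 3 := by
    have e : y ^ 2 = (p * (1 - p)) * (|u| ^ 3) * ((p * (1 - p)) * |u| / 4) := by
      rw [hy]
      have : |u| ^ 3 * |u| = u ^ 4 := by
        rw [← pow_succ]
        norm_num
        rw [show |u| ^ 4 = (|u| ^ 2) ^ 2 by ring, sq_abs]; ring
      calc (p * (1 - p) * u ^ 2 / 2) ^ 2 = (p * (1 - p)) ^ 2 * (u ^ 4) / 4 := by ring
        _ = (p * (1 - p)) ^ 2 * (|u| ^ 3 * |u|) / 4 := by rw [this]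
        _ = _ := by ring
    rw [e]
    apply mul_le_of_le_one_right (by positivity)
    nlinarith
  linarith

lemma factor_norm (p : ℝ) (hp0 : 0 ≤ p) (hp1 : p ≤ 1) (u : ℝ) :
    ‖(p : ℂ) * cexp ((((1 - p) * u : ℝ) : ℂ) * I) + ((1 - p : ℝ) : ℂ) * cexp (((-(p * u) : ℝ) : ℂ) * I)‖ ≤ 1 := by
  refine (norm_add_le _ _).trans ?_
  rw [norm_mul, norm_mul, Complex.norm_exp_ofReal_mul_I, Complex.norm_exp_ofReal_mul_I, Complex.norm_real,
    Complex.norm_real, Real.norm_of_nonneg hp0, Real.norm_of_nonneg (by linarith : (0 : ℝ) ≤ 1 - p)]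
  linarith

lemma prod_diffc {ι : Type*} (s : Finset ι) (a b : ι → ℂ) (ha : ∀ i ∈ s, ‖a i‖ ≤ 1) (hb : ∀ i ∈ s, ‖b i‖ ≤ 1) :
    ‖∏ i ∈ s, a i - ∏ i ∈ s, b i‖ ≤ ∑ i ∈ s, ‖a i - b i‖ := by
  classical
  induction s using Finset.induction_on with
  | empty => simp
  | insert i s hi ih =>
    rw [prod_insert hi, prod_insert hi, sum_insert hi]
    have e : a i * ∏ i ∈ s, a i - b i * ∏ i ∈ s, b i = (a i - b i) * ∏ i ∈ s, a i +
        b i * (∏ i ∈ s, a i - ∏ i ∈ s, b i) := by ring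
    rw [e]
    refine (norm_add_le _ _).trans ?_
    apply add_le_add
    · rw [norm_mul]
      apply mul_le_of_le_one_right (norm_nonneg _)
      rw [norm_prod]
      exact prod_le_one (fun _ _ => norm_nonneg _) (fun i hi' => ha i (mem_insert_of_mem hi'))
    · rw [norm_mul]
      exact (mul_le_of_le_one_left (norm_nonneg _) (hb i (mem_insert_self _ _))).trans
        (ih (fun i hi' => ha i (mem_insert_of_mem hi')) (fun i hi' => hb i (mem_insert_of_mem hi')))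

/-- the characteristic function of a centred sum over a random subset -/
lemma char_est (p : ℝ) (hp0 : 0 ≤ p) (hp1 : p ≤ 1) (H : ℕ) (u : ℕ → ℝ) (U : ℝ) (hU : U ≤ 1)
    (hu : ∀ d ∈ Icc 1 H, |u d| ≤ U) :
    ‖∑ D ∈ (Icc 1 H).powerset, (wt p H D : ℂ) *
      cexp (((∑ d ∈ D, u d - p * ∑ d ∈ Icc 1 H, u d : ℝ) : ℂ) * I) -
      ((Real.exp (-(p * (1 - p) * (∑ d ∈ Icc 1 H, u d ^ 2) / 2)) : ℝ) : ℂ)‖ ≤ 2 * (p * (1 - p)) * U ^ 3 * H := by
  rw [prodform]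
  have e : ((Real.exp (-(p * (1 - p) * (∑ d ∈ Icc 1 H, u d ^ 2) / 2)) : ℝ) : ℂ) =
      ∏ d ∈ Icc 1 H, ((Real.exp (-(p * (1 - p) * (u d) ^ 2 / 2)) : ℝ) : ℂ) := by
    rw [← Complex.ofReal_prod, ← Real.exp_sum]
    congr 2
    rw [mul_sum, sum_div, sum_neg_distrib]
  rw [e]
  have hq : 0 ≤ 1 - p := by linarith
  refine (prod_diffc _ _ _ (fun d _ => factor_norm p hp0 hp1 (u d)) (fun d _ => ?_)).trans ?_
  · rw [Complex.norm_real, Real.norm_of_nonneg (Real.exp_pos _).le, Real.exp_le_one_iff]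
    have : 0 ≤ p * (1 - p) * u d ^ 2 / 2 := by positivity
    linarith
  · calc ∑ d ∈ Icc 1 H, ‖((p : ℂ) * cexp ((((1 - p) * u d : ℝ) : ℂ) * I) + ((1 - p : ℝ) : ℂ) * cexp (((-(p * u d) : ℝ) : ℂ) * I)) -
        ((Real.exp (-(p * (1 - p) * (u d) ^ 2 / 2)) : ℝ) : ℂ)‖ ≤ ∑ d ∈ Icc 1 H, 2 * (p * (1 - p)) * U ^ 3 := by
          apply sum_le_sum
          intro d hd
          refine (factor_est p hp0 hp1 (u d) ((hu d hd).trans hU)).trans ?_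
          apply mul_le_mul_of_nonneg_left _ (by positivity)
          exact pow_le_pow_left₀ (abs_nonneg _) (hu d hd) 3
      _ = _ := by simp; ring

end Pool.Agent.J4.H36.MG
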