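import Pool.Agent.J4.H66.MG.Law
import Pool.Agent.J4.H36.MG.Prod

set_option autoImplicit false

/-! Almost all pairs of windows are almost orthogonal. -/

namespace Pool.Agent.J4.H36.MG
open Finset Complex
open Pool.Agent.J4.H66.MG (mu mu_abs mu_sq_mem cc cc_pos cc_half cc_one sg sg_nonneg sg_le YY YY_sum sqf_short exp_diff)

/-- almost all pairs of windows are almost orthogonal -/
lemma cross (η : ℝ) (hη : 0 < η) : ∃ H₀ : ℕ, 1 ≤ H₀ ∧ ∀ H ≥ H₀, ∀ X ≥ H, ∀ f : ℕ → ℝ, (∀ d, |f d| ≤ 1) →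
    (#{P ∈ Icc X (2 * X) ×ˢ Icc X (2 * X) | ¬ |∑ d ∈ Icc 1 H, f d ^ 2 * (mu (P.1 + d) * mu (P.2 + d))| ≤ η * H} : ℝ)
      ≤ η * (X : ℝ) ^ 2 := by
  obtain ⟨δ, hδ⟩ : ∃ δ : ℝ, δ = min 1 (η ^ 3 / 5) := ⟨_, rfl⟩
  have hδ0 : 0 < δ := by rw [hδ]; positivity
  have hδ1 : δ ≤ 1 := by rw [hδ]; exact min_le_left _ _
  have hδ2 : 5 * δ ≤ η ^ 3 := by
    have : δ ≤ η ^ 3 / 5 := by rw [hδ]; exact min_le_right _ _
    linarith
  obtain ⟨H₀, hH₀, h1⟩ := Pool.Agent.J4.H66.MG.one δ hδ0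
  refine ⟨H₀, hH₀, fun H hH X hX f hf => ?_⟩
  have hHn : 1 ≤ H := by omega
  have hXn : 1 ≤ X := by omega
  have hH0 : (0 : ℝ) < H := by exact_mod_cast hHn
  have hX0 : (0 : ℝ) < X := by exact_mod_cast hXn
  have hX1 : (1 : ℝ) ≤ X := by exact_mod_cast hXn
  have hf2 : ∀ d, 0 ≤ f d ^ 2 ∧ f d ^ 2 ≤ 1 := by
    intro d
    refine ⟨sq_nonneg _, ?_⟩
    rw [← sq_abs]
    exact pow_le_one₀ (abs_nonneg _) (hf d)
  set I := Icc X (2 * X) with hI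
  -- the correlations
  obtain ⟨C, hC⟩ : ∃ C : ℕ → ℕ → ℝ, ∀ d e, C d e = ∑ n ∈ I, mu (n + d) * mu (n + e) := ⟨_, fun _ _ => rfl⟩
  have hCabs : ∀ d e, |C d e| ≤ 2 * X := by
    intro d e
    rw [hC]
    refine (abs_sum_le_sum_abs _ _).trans ?_
    calc ∑ n ∈ I, |mu (n + d) * mu (n + e)| ≤ ∑ n ∈ I, (1 : ℝ) := by
          apply sum_le_sum
          intro n _
          rw [abs_mul]
          exact mul_le_one₀ (mu_abs _) (abs_nonneg _) (mu_abs _)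
      _ = X + 1 := by
          rw [hI]
          simp only [sum_const, Nat.card_Icc, nsmul_eq_mul, mul_one]
          have : 2 * X + 1 - X = X + 1 := by omega
          rw [this]
          push_cast
          ring
      _ ≤ 2 * X := by linarith
  have hCone : ∀ d, (#{e ∈ Icc 1 H | ¬ |C d e| ≤ δ * X} : ℝ) ≤ δ * H := by
    intro d
    have h2 := h1 H hH X hX (fun n => if n ∈ I then mu (n + d) else 0) (by
      intro n
      split_ifs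
      · exact mu_abs _
      · simp)
    refine le_trans (le_of_eq ?_) h2
    congr 2
    apply filter_congr
    intro e _
    rw [hC]
    have : ∑ n ∈ Icc 1 (2 * X), (if n ∈ I then mu (n + d) else 0) * mu (n + e) =
        ∑ n ∈ I, mu (n + d) * mu (n + e) := by
      simp only [ite_mul, zero_mul]
      rw [← sum_filter]
      apply sum_congr _ (fun _ _ => rfl)
      ext n
      simp only [hI, mem_filter, mem_Icc]
      omega
    rw [this]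
  have hCsq : ∀ d, ∑ e ∈ Icc 1 H, C d e ^ 2 ≤ 5 * δ * H * (X : ℝ) ^ 2 := by
    intro d
    have h3 : ∀ e ∈ Icc 1 H, C d e ^ 2 ≤ (δ * X) ^ 2 + (if ¬ |C d e| ≤ δ * X then (2 * (X : ℝ)) ^ 2 else 0) := by
      intro e _
      by_cases h : |C d e| ≤ δ * X
      · rw [if_neg (not_not.2 h), ← sq_abs]
        have : |C d e| ^ 2 ≤ (δ * (X : ℝ)) ^ 2 := pow_le_pow_left₀ (abs_nonneg _) h 2
        linarith
      · rw [if_pos h, ← sq_abs]
        have : |C d e| ^ 2 ≤ (2 * (X : ℝ)) ^ 2 := pow_le_pow_left₀ (abs_nonneg _) (hCabs d e) 2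
        nlinarith [sq_nonneg (δ * (X : ℝ))]
    refine (sum_le_sum h3).trans ?_
    rw [sum_add_distrib, ← sum_filter, sum_const, sum_const, nsmul_eq_mul, nsmul_eq_mul]
    simp only [Nat.card_Icc, add_tsub_cancel_right]
    have h4 := mul_le_mul_of_nonneg_right (hCone d) (by positivity : (0 : ℝ) ≤ (2 * (X : ℝ)) ^ 2)
    have h5 : (H : ℝ) * (δ * X) ^ 2 ≤ δ * H * (X : ℝ) ^ 2 := by
      have : (H : ℝ) * (δ * X) ^ 2 = δ * (δ * H * (X : ℝ) ^ 2) := by ring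
      rw [this]
      exact mul_le_of_le_one_left (by positivity) hδ1
    calc _ ≤ δ * H * (X : ℝ) ^ 2 + δ * H * (2 * (X : ℝ)) ^ 2 := add_le_add h5 h4
      _ = _ := by ring
  -- the second moment
  have h2m : ∑ P ∈ I ×ˢ I, (∑ d ∈ Icc 1 H, f d ^ 2 * (mu (P.1 + d) * mu (P.2 + d))) ^ 2 ≤
      5 * δ * (H : ℝ) ^ 2 * (X : ℝ) ^ 2 := by
    have e : ∑ P ∈ I ×ˢ I, (∑ d ∈ Icc 1 H, f d ^ 2 * (mu (P.1 + d) * mu (P.2 + d))) ^ 2 =
        ∑ d ∈ Icc 1 H, ∑ e ∈ Icc 1 H, f d ^ 2 * f e ^ 2 * C d e ^ 2 := by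
      simp only [sq (∑ d ∈ Icc 1 H, f d ^ 2 * (mu (_ + d) * mu (_ + d))), sum_mul_sum]
      rw [sum_comm]
      apply sum_congr rfl
      intro d _
      rw [sum_comm]
      apply sum_congr rfl
      intro e _
      rw [sum_product, hC, sq (∑ n ∈ I, mu (n + d) * mu (n + e)), sum_mul_sum, mul_sum]
      apply sum_congr rfl
      intro n _
      rw [mul_sum]
      apply sum_congr rfl
      intro n' _
      ring
    rw [e]
    calc ∑ d ∈ Icc 1 H, ∑ e ∈ Icc 1 H, f d ^ 2 * f e ^ 2 * C d e ^ 2 ≤ ∑ d ∈ Icc 1 H, ∑ e ∈ Icc 1 H, C d e ^ 2 := by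
          apply sum_le_sum
          intro d _
          apply sum_le_sum
          intro e _
          apply mul_le_of_le_one_left (sq_nonneg _)
          exact mul_le_one₀ (hf2 d).2 (hf2 e).1 (hf2 e).2
      _ ≤ ∑ d ∈ Icc 1 H, 5 * δ * H * (X : ℝ) ^ 2 := sum_le_sum (fun d _ => hCsq d)
      _ = _ := by
          simp only [sum_const, Nat.card_Icc, add_tsub_cancel_right, nsmul_eq_mul]
          ring
  -- Chebyshev
  set B := {P ∈ I ×ˢ I | ¬ |∑ d ∈ Icc 1 H, f d ^ 2 * (mu (P.1 + d) * mu (P.2 + d))| ≤ η * H} with hB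
  have h6 : (#B : ℝ) * (η * H) ^ 2 ≤ 5 * δ * (H : ℝ) ^ 2 * (X : ℝ) ^ 2 := by
    refine le_trans ?_ h2m
    rw [← nsmul_eq_mul]
    refine (card_nsmul_le_sum B (fun P => (∑ d ∈ Icc 1 H, f d ^ 2 * (mu (P.1 + d) * mu (P.2 + d))) ^ 2) _ ?_).trans ?_
    · intro P hP
      rw [hB, mem_filter] at hP
      rw [← sq_abs (∑ d ∈ Icc 1 H, f d ^ 2 * (mu (P.1 + d) * mu (P.2 + d)))]
      exact pow_le_pow_left₀ (by positivity) (not_le.1 hP.2).le 2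
    · apply sum_le_sum_of_subset_of_nonneg (filter_subset _ _)
      intro P _ _
      positivity
  have h7 : 5 * δ * (H : ℝ) ^ 2 * (X : ℝ) ^ 2 ≤ (η * (X : ℝ) ^ 2) * (η * H) ^ 2 := by
    calc 5 * δ * (H : ℝ) ^ 2 * (X : ℝ) ^ 2 ≤ η ^ 3 * (H : ℝ) ^ 2 * (X : ℝ) ^ 2 := by gcongr
      _ = _ := by ring
  exact le_of_mul_le_mul_right (h6.trans h7) (by positivity)

/-- the good pairs of windows -/
def Good (η : ℝ) (H : ℕ) (f : ℕ → ℝ) (P : ℕ × ℕ) : Prop :=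
  |∑ d ∈ Icc 1 H, YY H f P.1 d| ≤ η * H ∧ |∑ d ∈ Icc 1 H, YY H f P.2 d| ≤ η * H ∧
    |∑ d ∈ Icc 1 H, f d ^ 2 * (mu (P.1 + d) * mu (P.2 + d))| ≤ η * H

open Classical in
lemma good (η V : ℝ) (hη : 0 < η) (hV0 : 0 ≤ V) : ∃ H₀ : ℕ, 1 ≤ H₀ ∧ ∀ H ≥ H₀, ∀ X ≥ H, ∀ f : ℕ → ℝ, (∀ d, |f d| ≤ 1) →
    ∑ d ∈ Ico 1 H, |f (d + 1) - f d| ≤ V →
    (#{P ∈ Icc X (2 * X) ×ˢ Icc X (2 * X) | ¬ Good η H f P} : ℝ) ≤ η * (X : ℝ) ^ 2 := by
  obtain ⟨δ, hδ⟩ : ∃ δ : ℝ, δ = min (η / (1 + 2 * V)) (η / 8) := ⟨_, rfl⟩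
  have hδ0 : 0 < δ := by rw [hδ]; positivity
  have hδ1 : δ * (1 + 2 * V) ≤ η := by
    have : δ ≤ η / (1 + 2 * V) := by rw [hδ]; exact min_le_left _ _
    rwa [le_div_iff₀ (by positivity)] at this
  have hδ2 : δ ≤ η / 8 := by rw [hδ]; exact min_le_right _ _
  obtain ⟨H₁, hH₁, h1⟩ := sqf_short δ hδ0
  obtain ⟨H₂, hH₂, h2⟩ := cross (η / 2) (by positivity)
  refine ⟨H₁ + H₂, by omega, fun H hH X hX f hf hV => ?_⟩
  have hHn : 1 ≤ H := by omega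
  have hXn : 1 ≤ X := by omega
  have hH0 : (0 : ℝ) < H := by exact_mod_cast hHn
  have hX1 : (1 : ℝ) ≤ X := by exact_mod_cast hXn
  have hX0 : (0 : ℝ) < X := by linarith
  have h1 := h1 H (by omega) X hX
  have h2 := h2 H (by omega) X hX f hf
  set I := Icc X (2 * X) with hI
  set B₁ := {n ∈ I | ¬ ∀ L ≤ H, |∑ d ∈ Icc 1 L, (mu (n + d) ^ 2 - cc)| ≤ δ * H} with hB₁
  set B₂ := {P ∈ I ×ˢ I | ¬ |∑ d ∈ Icc 1 H, f d ^ 2 * (mu (P.1 + d) * mu (P.2 + d))| ≤ η / 2 * H} with hB₂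
  have hIc : (#I : ℝ) ≤ 2 * X := by
    rw [hI, Nat.card_Icc]
    have : 2 * X + 1 - X = X + 1 := by omega
    rw [this]
    push_cast
    linarith
  have hsub : {P ∈ I ×ˢ I | ¬ Good η H f P} ⊆ (B₁ ×ˢ I ∪ I ×ˢ B₁) ∪ B₂ := by
    intro P hP
    rw [mem_filter] at hP
    have hPI := mem_product.1 hP.1
    by_contra hcon
    rw [mem_union, mem_union, mem_product, mem_product] at hcon
    push Not at hcon
    have g1 : P.1 ∉ B₁ := fun h => hcon.1.1 h hPI.2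
    have g2 : P.2 ∉ B₁ := fun h => hcon.1.2 hPI.1 h
    have g3 : P ∉ B₂ := hcon.2
    rw [hB₁, mem_filter] at g1 g2
    rw [hB₂, mem_filter] at g3
    have g1' : ∀ L ≤ H, |∑ d ∈ Icc 1 L, (mu (P.1 + d) ^ 2 - cc)| ≤ δ * H := by
      by_contra hc; exact g1 ⟨hPI.1, hc⟩
    have g2' : ∀ L ≤ H, |∑ d ∈ Icc 1 L, (mu (P.2 + d) ^ 2 - cc)| ≤ δ * H := by
      by_contra hc; exact g2 ⟨hPI.2, hc⟩
    have g3' : |∑ d ∈ Icc 1 H, f d ^ 2 * (mu (P.1 + d) * mu (P.2 + d))| ≤ η / 2 * H := by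
      by_contra hc; exact g3 ⟨hP.1, hc⟩
    apply hP.2
    have k1 := YY_sum H hHn f hf V hV P.1 δ hδ0.le g1'
    have k2 := YY_sum H hHn f hf V hV P.2 δ hδ0.le g2'
    have k3 : δ * (1 + 2 * V) * H ≤ η * H := mul_le_mul_of_nonneg_right hδ1 hH0.le
    refine ⟨k1.trans k3, k2.trans k3, g3'.trans ?_⟩
    apply mul_le_mul_of_nonneg_right _ hH0.le
    linarith
  have hcard : (#{P ∈ I ×ˢ I | ¬ Good η H f P} : ℝ) ≤ #B₁ * #I + #I * #B₁ + #B₂ := by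
    have h3 := (card_le_card hsub).trans ((card_union_le _ _).trans (Nat.add_le_add_right (card_union_le _ _) _))
    rw [card_product, card_product] at h3
    exact_mod_cast h3
  have hb : (#B₁ : ℝ) ≤ η / 8 * X := h1.trans (mul_le_mul_of_nonneg_right hδ2 hX0.le)
  have hB1I : (#B₁ : ℝ) * #I ≤ η / 4 * (X : ℝ) ^ 2 := by
    calc (#B₁ : ℝ) * #I ≤ (η / 8 * X) * (2 * X) := mul_le_mul hb hIc (by positivity) (by positivity)
      _ = _ := by ring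
  calc (#{P ∈ I ×ˢ I | ¬ Good η H f P} : ℝ) ≤ #B₁ * #I + #I * #B₁ + #B₂ := hcard
    _ ≤ η / 4 * (X : ℝ) ^ 2 + η / 4 * (X : ℝ) ^ 2 + η / 2 * (X : ℝ) ^ 2 := by
        have : (#I : ℝ) * #B₁ = #B₁ * #I := by ring
        rw [this]
        linarith
    _ = _ := by ring

/-- the normalisation -/
noncomputable def den (p : ℝ) (H : ℕ) (f : ℕ → ℝ) : ℝ := Real.sqrt (p * (1 - p) * (cc * (H * sg H f)))

/-- the normalised centred sum over `D` -/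
noncomputable def ZD (p : ℝ) (H : ℕ) (f : ℕ → ℝ) (D : Finset ℕ) (n : ℕ) : ℝ :=
  (∑ d ∈ D, f d * mu (n + d) - p * ∑ d ∈ Icc 1 H, f d * mu (n + d)) / den p H f

/-- the average of a function over the random subset -/
noncomputable def ED (p : ℝ) (H : ℕ) (F : Finset ℕ → ℂ) : ℂ := ∑ D ∈ (Icc 1 H).powerset, (wt p H D : ℂ) * F D

lemma ED_norm (p : ℝ) (hp0 : 0 ≤ p) (hp1 : p ≤ 1) (H : ℕ) (F : Finset ℕ → ℂ) (hF : ∀ D, ‖F D‖ ≤ 1) : ‖ED p H F‖ ≤ 1 := by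
  unfold ED
  refine (norm_sum_le _ _).trans ?_
  calc ∑ D ∈ (Icc 1 H).powerset, ‖(wt p H D : ℂ) * F D‖ ≤ ∑ D ∈ (Icc 1 H).powerset, wt p H D := by
        apply sum_le_sum
        intro D _
        rw [norm_mul, Complex.norm_real, Real.norm_of_nonneg (wt_nonneg p hp0 hp1 H D)]
        exact mul_le_of_le_one_right (wt_nonneg p hp0 hp1 H D) (hF D)
    _ = 1 := wt_sum p H

/-- the pointwise estimate for a good pair -/
lemma pair_est (p : ℝ) (hp0 : 0 < p) (hp1 : p < 1) (H : ℕ) (hH : 1 ≤ H) (f : ℕ → ℝ) (hf : ∀ d, |f d| ≤ 1)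
    (ε : ℝ) (hε : 0 < ε) (hsg : ε ≤ sg H f) (T : ℝ) (hT : 1 ≤ T) (hR : 2 * T ≤ den p H f) (δ : ℝ) (hδ : 0 ≤ δ)
    (P : ℕ × ℕ) (hP : Good δ H f P) (s t : ℝ) (hs : |s| ≤ T) (ht : |t| ≤ T) :
    ‖ED p H (fun D => cexp (((s * ZD p H f D P.1 + t * ZD p H f D P.2 : ℝ) : ℂ) * I)) -
      ((Real.exp (-((s ^ 2 + t ^ 2) / 2)) : ℝ) : ℂ)‖ ≤ 32 * T ^ 3 / (ε * den p H f) + 4 * T ^ 2 * δ / ε := by
  have hH0 : (0 : ℝ) < H := by exact_mod_cast hH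
  have hq : 0 < 1 - p := by linarith
  have hsg0 : 0 < sg H f := lt_of_lt_of_le hε hsg
  have hcc := cc_pos
  obtain ⟨r, hr⟩ : ∃ r : ℝ, r = den p H f := ⟨_, rfl⟩
  rw [← hr] at hR ⊢
  have hr0 : 0 < r := by linarith
  have hr2 : r ^ 2 = p * (1 - p) * (cc * (H * sg H f)) := by
    rw [hr, den, Real.sq_sqrt (by positivity)]
  obtain ⟨u, hu⟩ : ∃ u : ℕ → ℝ, ∀ d, u d = f d * (s * mu (P.1 + d) + t * mu (P.2 + d)) / r := ⟨_, fun _ => rfl⟩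
  have hlin : ∀ D : Finset ℕ, s * ZD p H f D P.1 + t * ZD p H f D P.2 = ∑ d ∈ D, u d - p * ∑ d ∈ Icc 1 H, u d := by
    intro D
    have e1 : ∀ S : Finset ℕ, ∑ d ∈ S, u d =
        (s * ∑ d ∈ S, f d * mu (P.1 + d) + t * ∑ d ∈ S, f d * mu (P.2 + d)) / r := by
      intro S
      rw [mul_sum, mul_sum, ← sum_add_distrib, sum_div]
      apply sum_congr rfl
      intro d _
      rw [hu]
      ring
    rw [e1, e1]
    unfold ZD
    rw [← hr]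
    ring
  have hub : ∀ d ∈ Icc 1 H, |u d| ≤ 2 * T / r := by
    intro d _
    rw [hu, abs_div, abs_of_pos hr0]
    apply div_le_div_of_nonneg_right _ hr0.le
    rw [abs_mul]
    have a1 : |s * mu (P.1 + d) + t * mu (P.2 + d)| ≤ 2 * T := by
      refine (abs_add_le _ _).trans ?_
      rw [abs_mul, abs_mul]
      have b1 : |s| * |mu (P.1 + d)| ≤ T := (mul_le_of_le_one_right (abs_nonneg _) (mu_abs _)).trans hs
      have b2 : |t| * |mu (P.2 + d)| ≤ T := (mul_le_of_le_one_right (abs_nonneg _) (mu_abs _)).trans ht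
      linarith
    exact (mul_le_of_le_one_left (abs_nonneg _) (hf d)).trans a1
  have h1 := char_est p hp0.le hp1.le H u (2 * T / r) (by rw [div_le_one hr0]; exact hR) hub
  have e2 : ED p H (fun D => cexp (((s * ZD p H f D P.1 + t * ZD p H f D P.2 : ℝ) : ℂ) * I)) =
      ∑ D ∈ (Icc 1 H).powerset, (wt p H D : ℂ) *
      cexp (((∑ d ∈ D, u d - p * ∑ d ∈ Icc 1 H, u d : ℝ) : ℂ) * I) := by
    unfold ED
    simp only [hlin]
  rw [e2]
  -- the quadratic form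
  obtain ⟨E1, hE1⟩ : ∃ E1 : ℝ, E1 = ∑ d ∈ Icc 1 H, YY H f P.1 d := ⟨_, rfl⟩
  obtain ⟨E2, hE2⟩ : ∃ E2 : ℝ, E2 = ∑ d ∈ Icc 1 H, YY H f P.2 d := ⟨_, rfl⟩
  obtain ⟨E3, hE3⟩ : ∃ E3 : ℝ, E3 = ∑ d ∈ Icc 1 H, f d ^ 2 * (mu (P.1 + d) * mu (P.2 + d)) := ⟨_, rfl⟩
  obtain ⟨g1, g2, g3⟩ := hP
  rw [← hE1] at g1
  rw [← hE2] at g2
  rw [← hE3] at g3
  have hY : ∀ n : ℕ, ∑ d ∈ Icc 1 H, f d ^ 2 * mu (n + d) ^ 2 = ∑ d ∈ Icc 1 H, YY H f n d + cc * (H * sg H f) := by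
    intro n
    unfold YY
    rw [sum_sub_distrib, sum_const, Nat.card_Icc, add_tsub_cancel_right, nsmul_eq_mul]
    have : ∑ d ∈ Icc 1 H, mu (n + d) ^ 2 * f d ^ 2 = ∑ d ∈ Icc 1 H, f d ^ 2 * mu (n + d) ^ 2 :=
      sum_congr rfl (fun _ _ => mul_comm _ _)
    rw [this]
    ring
  have hq2 : ∑ d ∈ Icc 1 H, u d ^ 2 =
      (s ^ 2 * (E1 + cc * (H * sg H f)) + t ^ 2 * (E2 + cc * (H * sg H f)) + 2 * (s * t) * E3) / r ^ 2 := by
    rw [hE1, hE2, ← hY, ← hY, hE3, mul_sum, mul_sum, mul_sum, ← sum_add_distrib, ← sum_add_distrib, sum_div]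
    apply sum_congr rfl
    intro d _
    rw [hu]
    ring
  have hexp : p * (1 - p) * (∑ d ∈ Icc 1 H, u d ^ 2) / 2 =
      (s ^ 2 + t ^ 2) / 2 + (s ^ 2 * E1 + t ^ 2 * E2 + 2 * (s * t) * E3) / (2 * (cc * (H * sg H f))) := by
    rw [hq2, hr2]
    field_simp
    ring
  have hs2 : s ^ 2 ≤ T ^ 2 := by rw [← sq_abs]; exact pow_le_pow_left₀ (abs_nonneg _) hs 2
  have ht2 : t ^ 2 ≤ T ^ 2 := by rw [← sq_abs]; exact pow_le_pow_left₀ (abs_nonneg _) ht 2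
  have hst : |s * t| ≤ T ^ 2 := by
    rw [abs_mul, sq]
    exact mul_le_mul hs ht (abs_nonneg _) (by linarith)
  have hnum : |s ^ 2 * E1 + t ^ 2 * E2 + 2 * (s * t) * E3| ≤ 4 * T ^ 2 * (δ * H) := by
    have hδH : 0 ≤ δ * H := by positivity
    have c1 : |s ^ 2 * E1| ≤ T ^ 2 * (δ * H) := by
      rw [abs_mul, abs_of_nonneg (sq_nonneg s)]
      exact mul_le_mul hs2 g1 (abs_nonneg _) (by positivity)
    have c2 : |t ^ 2 * E2| ≤ T ^ 2 * (δ * H) := by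
      rw [abs_mul, abs_of_nonneg (sq_nonneg t)]
      exact mul_le_mul ht2 g2 (abs_nonneg _) (by positivity)
    have c3 : |2 * (s * t) * E3| ≤ 2 * T ^ 2 * (δ * H) := by
      rw [abs_mul, abs_mul, abs_of_nonneg (by norm_num : (0 : ℝ) ≤ 2)]
      exact mul_le_mul (by linarith) g3 (abs_nonneg _) (by positivity)
    refine (abs_add_le _ _).trans ?_
    have := abs_add_le (s ^ 2 * E1) (t ^ 2 * E2)
    linarith
  have hcH : ε * H / 2 ≤ cc * (H * sg H f) := by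
    have h2 : 1 / 2 * (H * ε) ≤ cc * (H * sg H f) :=
      mul_le_mul cc_half (mul_le_mul_of_nonneg_left hsg hH0.le) (by positivity) hcc.le
    linarith
  have hdiff : |p * (1 - p) * (∑ d ∈ Icc 1 H, u d ^ 2) / 2 - (s ^ 2 + t ^ 2) / 2| ≤ 4 * T ^ 2 * δ / ε := by
    rw [hexp, add_sub_cancel_left, abs_div, abs_of_pos (by positivity : 0 < 2 * (cc * (H * sg H f))), div_le_div_iff₀
      (by positivity) hε]
    calc |s ^ 2 * E1 + t ^ 2 * E2 + 2 * (s * t) * E3| * ε ≤ 4 * T ^ 2 * (δ * H) * ε :=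
          mul_le_mul_of_nonneg_right hnum hε.le
      _ = 4 * T ^ 2 * δ * (2 * (ε * H / 2)) := by ring
      _ ≤ 4 * T ^ 2 * δ * (2 * (cc * (H * sg H f))) := by
          apply mul_le_mul_of_nonneg_left _ (by positivity)
          linarith
  have h3 : ‖((Real.exp (-(p * (1 - p) * (∑ d ∈ Icc 1 H, u d ^ 2) / 2)) : ℝ) : ℂ) -
      ((Real.exp (-((s ^ 2 + t ^ 2) / 2)) : ℝ) : ℂ)‖ ≤ 4 * T ^ 2 * δ / ε := by
    rw [← Complex.ofReal_sub, Complex.norm_real]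
    exact (exp_diff _ _ (by positivity) (by positivity)).trans hdiff
  have h4 : 2 * (p * (1 - p)) * (2 * T / r) ^ 3 * H ≤ 32 * T ^ 3 / (ε * r) := by
    have e3 : 2 * (p * (1 - p)) * (2 * T / r) ^ 3 * H = 16 * T ^ 3 * (p * (1 - p) * H) / r ^ 3 := by
      rw [div_pow]
      ring
    rw [e3, div_le_div_iff₀ (by positivity) (by positivity)]
    have h5 : p * (1 - p) * H * ε ≤ 2 * r ^ 2 := by
      rw [hr2]
      have := mul_le_mul_of_nonneg_left hcH (by positivity : 0 ≤ p * (1 - p))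
      linarith
    calc 16 * T ^ 3 * (p * (1 - p) * H) * (ε * r) = 16 * T ^ 3 * r * (p * (1 - p) * H * ε) := by ring
      _ ≤ 16 * T ^ 3 * r * (2 * r ^ 2) := mul_le_mul_of_nonneg_left h5 (by positivity)
      _ = _ := by ring
  have h6 : ‖ED p H (fun D => cexp (((s * ZD p H f D P.1 + t * ZD p H f D P.2 : ℝ) : ℂ) * I)) -
      ((Real.exp (-((s ^ 2 + t ^ 2) / 2)) : ℝ) : ℂ)‖ ≤
      2 * (p * (1 - p)) * (2 * T / r) ^ 3 * H + 4 * T ^ 2 * δ / ε := by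
    rw [e2]
    refine (norm_sub_le_norm_sub_add_norm_sub _ _ _).trans (add_le_add h1 h3)
  rw [e2] at h6
  linarith

end Pool.Agent.J4.H36.MG
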