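import Pool.Agent.J4.H36.MG.Equiv

set_option autoImplicit false

/-! The transfer of the Gaussian law between the whole windows and random subsets of the windows. -/

namespace Pool.Agent.J4.H36.MG
open Finset Filter Topology Complex MeasureTheory ProbabilityTheory
open Pool.Agent.J4.H66.MG (mu mu_abs cc cc_pos sg Phi Phi_cdf)

/-- the normalised sum over `n + D` -/
noncomputable def SD (r : ℝ) (D : Finset ℕ) (n : ℕ) : ℝ := (∑ d ∈ D, mu (n + d)) / r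

lemma ch_norm (A : Finset ℕ) (Z : ℕ → ℝ) (τ : ℝ) : ‖ch A Z τ‖ ≤ 1 := by
  unfold ch
  rw [norm_div, Complex.norm_natCast]
  apply div_le_one_of_le₀ _ (by positivity)
  refine (norm_sum_le _ _).trans ?_
  simp only [Complex.norm_exp_ofReal_mul_I, sum_const, nsmul_eq_mul, mul_one, le_refl]

lemma ch_zero (A : Finset ℕ) (hA : A.Nonempty) (Z : ℕ → ℝ) : ch A Z 0 = 1 := by
  unfold ch
  have : (#A : ℂ) ≠ 0 := by
    have := (card_pos.2 hA).ne'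
    exact_mod_cast this
  simp [this]

lemma ch_neg (A : Finset ℕ) (Z : ℕ → ℝ) (τ : ℝ) : ch A Z (-τ) = (starRingEnd ℂ) (ch A Z τ) := by
  unfold ch
  rw [map_div₀, map_sum, map_natCast]
  congr 1
  apply sum_congr rfl
  intro n _
  rw [← Complex.exp_conj, map_mul, Complex.conj_ofReal, Complex.conj_I]
  congr 1
  push_cast
  ring

lemma core (p : ℝ) (hp0 : 0 < p) (hp1 : p < 1) (T γ : ℝ) (hT : 1 ≤ T) (hγ : 0 < γ) : ∃ K : ℝ, 1 ≤ K ∧
    ∀ L : ℕ, K ≤ p * (1 - p) * L → ∀ N ≥ L, ∀ r : ℝ, 0 < r → ∀ s t : ℝ, |den p L (fun _ => 1) / r * s| ≤ T →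
    |den p L (fun _ => 1) / r * t| ≤ T →
    ‖∑ D ∈ (Icc 1 L).powerset, (wt p L D : ℂ) * (ch (Icc N (2 * N)) (SD r D) s * ch (Icc N (2 * N)) (SD r D) t) -
      ((Real.exp (-(((den p L (fun _ => 1) / r * s) ^ 2 + (den p L (fun _ => 1) / r * t) ^ 2) / 2)) : ℝ) : ℂ) *
      (ch (Icc N (2 * N)) (fun n => p * ML L n / r) s * ch (Icc N (2 * N)) (fun n => p * ML L n / r) t)‖ ≤ γ := by
  obtain ⟨K, hK1, h1⟩ := avg_est 1 0 one_pos le_rfl T γ hT hγ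
  refine ⟨K, hK1, fun L hL N hN r hr s t hs ht => ?_⟩
  have hq : 0 < 1 - p := by linarith
  have hpq : p * (1 - p) ≤ 1 := by nlinarith
  have hHr : p * (1 - p) * L ≤ L := mul_le_of_le_one_left (by positivity) hpq
  have hL1 : 1 ≤ L := by
    have : (1 : ℝ) ≤ L := (hK1.trans hL).trans hHr
    exact_mod_cast this
  have hLp : (0 : ℝ) < L := by exact_mod_cast hL1
  have hsg : sg L (fun _ => 1) = 1 := by
    unfold sg
    simp only [one_pow, sum_const, Nat.card_Icc, add_tsub_cancel_right, nsmul_eq_mul, mul_one]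
    exact div_self hLp.ne'
  have hden : 0 < den p L (fun _ => 1) := by
    unfold den
    rw [hsg]
    have := cc_pos
    positivity
  obtain ⟨a, ha⟩ : ∃ a : ℝ, a = den p L (fun _ => 1) / r := ⟨_, rfl⟩
  rw [← ha] at hs ht ⊢
  have h2 := h1 p hp0 hp1 L hL N hN (fun _ => 1) (by simp) (by simp) (by rw [hsg]) (Icc N (2 * N)) (Subset.refl _) (by
    rw [Nat.card_Icc, one_mul]
    exact_mod_cast (by omega : N ≤ 2 * N + 1 - N))
    (fun n n' => cexp (((s * (p * ML L n / r) + t * (p * ML L n' / r) : ℝ) : ℂ) * I))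
    (fun n n' => by rw [Complex.norm_exp_ofReal_mul_I]) (a * s) (a * t) hs ht
  rw [ch_mul]
  have hid : ∀ (D : Finset ℕ) (n : ℕ), SD r D n = a * ZD p L (fun _ => 1) D n + p * ML L n / r := by
    intro D n
    unfold SD ZD ML
    rw [ha]
    simp only [one_mul]
    field_simp
    ring
  have e1 : ∀ n n' : ℕ, ED p L (fun D => cexp (((s * SD r D n + t * SD r D n' : ℝ) : ℂ) * I)) =
      cexp (((s * (p * ML L n / r) + t * (p * ML L n' / r) : ℝ) : ℂ) * I) *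
      ED p L (fun D => cexp (((a * s * ZD p L (fun _ => 1) D n + a * t * ZD p L (fun _ => 1) D n' : ℝ) : ℂ) * I)) := by
    intro n n'
    unfold ED
    rw [mul_sum]
    apply sum_congr rfl
    intro D _
    beta_reduce
    rw [mul_left_comm, ← Complex.exp_add, hid D n, hid D n']
    congr 2
    push_cast
    ring
  simp only [e1]
  have e2 : (∑ n ∈ Icc N (2 * N), ∑ n' ∈ Icc N (2 * N), cexp (((s * (p * ML L n / r) + t * (p * ML L n' / r) : ℝ) : ℂ) * I)) /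
      (#(Icc N (2 * N)) : ℂ) ^ 2 =
      ch (Icc N (2 * N)) (fun n => p * ML L n / r) s * ch (Icc N (2 * N)) (fun n => p * ML L n / r) t := by
    unfold ch
    rw [div_mul_div_comm, sum_mul_sum, sq]
    congr 1
    apply sum_congr rfl
    intro n _
    apply sum_congr rfl
    intro n' _
    rw [← Complex.exp_add]
    congr 1
    push_cast
    ring
  rw [e2] at h2
  exact h2

/-- the normalisation for random subsets -/
noncomputable def rr (p H : ℝ) : ℝ := Real.sqrt (p * (H / (Real.pi ^ 2 / 6)))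

lemma rr_pos (p H : ℝ) (hp : 0 < p) (hH : 0 < H) : 0 < rr p H := by
  unfold rr
  positivity

lemma rr_eq (p H : ℝ) (hp : 0 ≤ p) : rr p H = Real.sqrt p * nrm H := by
  unfold rr nrm
  rw [Real.sqrt_mul hp]

lemma a_sq (p H : ℝ) (hp0 : 0 < p) (hp1 : p < 1) (hH : 1 ≤ H) :
    (den p ⌊H⌋₊ (fun _ => 1) / rr p H) ^ 2 = (1 - p) * (⌊H⌋₊ / H) := by
  have hL1 : 1 ≤ ⌊H⌋₊ := Nat.le_floor (by simpa using hH)
  have hLp : (0 : ℝ) < ⌊H⌋₊ := by exact_mod_cast hL1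
  have hsg : sg ⌊H⌋₊ (fun _ => 1) = 1 := by
    unfold sg
    simp only [one_pow, sum_const, Nat.card_Icc, add_tsub_cancel_right, nsmul_eq_mul, mul_one]
    exact div_self hLp.ne'
  have hq : 0 < 1 - p := by linarith
  have hcc := cc_pos
  rw [div_pow]
  unfold den rr
  rw [hsg, Real.sq_sqrt (by positivity), Real.sq_sqrt (by positivity)]
  unfold cc
  field_simp

lemma p_ch (p H : ℝ) (hp0 : 0 < p) (hH : 1 ≤ H) (A : Finset ℕ) (L : ℕ) (s : ℝ) :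
    ch A (fun n => p * ML L n / rr p H) s = ch A (fun n => ML L n / nrm H) (Real.sqrt p * s) := by
  unfold ch
  congr 1
  apply sum_congr rfl
  intro n _
  congr 3
  have hn := nrm_pos H (by linarith)
  have hs := Real.sqrt_pos.2 hp0
  rw [rr_eq p H hp0.le]
  have : p = Real.sqrt p * Real.sqrt p := (Real.mul_self_sqrt hp0.le).symm
  nth_rw 1 [this]
  field_simp

/-- the hypotheses on the length -/
lemma ev_all (p : ℝ) (hp0 : 0 < p) (hp1 : p < 1) (H : ℝ → ℝ) (h1 : Tendsto H atTop atTop)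
    (h2 : Tendsto (fun X => H X / X) atTop (𝓝 0)) (K : ℝ) :
    ∀ᶠ X : ℝ in atTop, 1 ≤ X ∧ 1 ≤ H X ∧ K ≤ p * (1 - p) * ⌊H X⌋₊ ∧ ⌊H X⌋₊ ≤ ⌊X⌋₊ := by
  have hq : 0 < 1 - p := by linarith
  have a1 := eventually_ge_atTop (1 : ℝ)
  have a2 := h1.eventually_ge_atTop (1 + |K| / (p * (1 - p)))
  have a3 := h2.eventually (gt_mem_nhds (zero_lt_one' ℝ))
  filter_upwards [a1, a2, a3] with X b1 b2 b3
  have hK0 : 0 ≤ |K| / (p * (1 - p)) := by positivity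
  refine ⟨b1, by linarith, ?_, ?_⟩
  · have h3 : |K| / (p * (1 - p)) ≤ ⌊H X⌋₊ := by
      have := Nat.lt_floor_add_one (H X)
      linarith
    rw [div_le_iff₀ (by positivity)] at h3
    have := le_abs_self K
    linarith
  · rw [div_lt_one (by linarith)] at b3
    exact Nat.floor_le_floor b3.le

/-- the limit of the averaged products -/
lemma prod_tendsto (p : ℝ) (hp0 : 0 < p) (hp1 : p < 1) (H : ℝ → ℝ) (h1 : Tendsto H atTop atTop)
    (h2 : Tendsto (fun X => H X / X) atTop (𝓝 0))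
    (h : ∀ τ : ℝ, Tendsto (fun X : ℝ => ch (Icc ⌊X⌋₊ (2 * ⌊X⌋₊)) (fun n => ML ⌊H X⌋₊ n / nrm (H X)) τ) atTop
      (𝓝 ((Real.exp (-(τ ^ 2 / 2)) : ℝ) : ℂ))) (s t : ℝ) :
    Tendsto (fun X : ℝ => ∑ D ∈ (Icc 1 ⌊H X⌋₊).powerset, (wt p ⌊H X⌋₊ D : ℂ) *
      (ch (Icc ⌊X⌋₊ (2 * ⌊X⌋₊)) (SD (rr p (H X)) D) s * ch (Icc ⌊X⌋₊ (2 * ⌊X⌋₊)) (SD (rr p (H X)) D) t)) atTop
      (𝓝 ((Real.exp (-((s ^ 2 + t ^ 2) / 2)) : ℝ) : ℂ)) := by
  have hq : 0 < 1 - p := by linarith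
  have hfl : Tendsto (fun X => (⌊H X⌋₊ : ℝ) / H X) atTop (𝓝 1) := (tendsto_nat_floor_div_atTop (R := ℝ)).comp h1
  have hev := ev_all p hp0 hp1 H h1 h2 0
  -- the main term
  have hmain : Tendsto (fun X : ℝ => ((Real.exp (-(((den p ⌊H X⌋₊ (fun _ => 1) / rr p (H X) * s) ^ 2 +
      (den p ⌊H X⌋₊ (fun _ => 1) / rr p (H X) * t) ^ 2) / 2)) : ℝ) : ℂ) *
      (ch (Icc ⌊X⌋₊ (2 * ⌊X⌋₊)) (fun n => p * ML ⌊H X⌋₊ n / rr p (H X)) s *
        ch (Icc ⌊X⌋₊ (2 * ⌊X⌋₊)) (fun n => p * ML ⌊H X⌋₊ n / rr p (H X)) t)) atTop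
      (𝓝 ((Real.exp (-((s ^ 2 + t ^ 2) / 2)) : ℝ) : ℂ)) := by
    have e1 : Tendsto (fun X : ℝ => ((Real.exp (-(((1 - p) * (⌊H X⌋₊ / H X)) * (s ^ 2 + t ^ 2) / 2)) : ℝ) : ℂ)) atTop
        (𝓝 ((Real.exp (-(((1 - p) * 1) * (s ^ 2 + t ^ 2) / 2)) : ℝ) : ℂ)) := by
      apply (Complex.continuous_ofReal.tendsto _).comp
      apply (Real.continuous_exp.tendsto _).comp
      apply Tendsto.neg
      apply Tendsto.div_const
      apply Tendsto.mul_const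
      exact hfl.const_mul _
    have e2 := e1.mul ((h (Real.sqrt p * s)).mul (h (Real.sqrt p * t)))
    have e3 : ((Real.exp (-(((1 - p) * 1) * (s ^ 2 + t ^ 2) / 2)) : ℝ) : ℂ) *
        (((Real.exp (-((Real.sqrt p * s) ^ 2 / 2)) : ℝ) : ℂ) * ((Real.exp (-((Real.sqrt p * t) ^ 2 / 2)) : ℝ) : ℂ)) =
        ((Real.exp (-((s ^ 2 + t ^ 2) / 2)) : ℝ) : ℂ) := by
      rw [← Complex.ofReal_mul, ← Complex.ofReal_mul, ← Real.exp_add, ← Real.exp_add, mul_pow, mul_pow, Real.sq_sqrt hp0.le]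
      congr 2
      ring
    rw [e3] at e2
    refine e2.congr' ?_
    filter_upwards [hev] with X hX
    rw [p_ch p (H X) hp0 hX.2.1, p_ch p (H X) hp0 hX.2.1, mul_pow, mul_pow, a_sq p (H X) hp0 hp1 hX.2.1]
    congr 3
    ring
  -- the difference
  have hdiff : Tendsto (fun X : ℝ => ∑ D ∈ (Icc 1 ⌊H X⌋₊).powerset, (wt p ⌊H X⌋₊ D : ℂ) *
      (ch (Icc ⌊X⌋₊ (2 * ⌊X⌋₊)) (SD (rr p (H X)) D) s * ch (Icc ⌊X⌋₊ (2 * ⌊X⌋₊)) (SD (rr p (H X)) D) t) -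
      ((Real.exp (-(((den p ⌊H X⌋₊ (fun _ => 1) / rr p (H X) * s) ^ 2 +
      (den p ⌊H X⌋₊ (fun _ => 1) / rr p (H X) * t) ^ 2) / 2)) : ℝ) : ℂ) *
      (ch (Icc ⌊X⌋₊ (2 * ⌊X⌋₊)) (fun n => p * ML ⌊H X⌋₊ n / rr p (H X)) s *
        ch (Icc ⌊X⌋₊ (2 * ⌊X⌋₊)) (fun n => p * ML ⌊H X⌋₊ n / rr p (H X)) t)) atTop (𝓝 0) := by
    rw [Metric.tendsto_nhds]
    intro γ hγ
    obtain ⟨T, hT⟩ : ∃ T : ℝ, T = 1 + |s| + |t| := ⟨_, rfl⟩
    have hs0 := abs_nonneg s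
    have ht0 := abs_nonneg t
    obtain ⟨K, hK1, hK⟩ := core p hp0 hp1 T (γ / 2) (by linarith) (by positivity)
    filter_upwards [ev_all p hp0 hp1 H h1 h2 K] with X hX
    obtain ⟨b1, b2, b3, b4⟩ := hX
    have hr := rr_pos p (H X) hp0 (by linarith)
    have ha1 : |den p ⌊H X⌋₊ (fun _ => 1) / rr p (H X)| ≤ 1 := by
      rw [← sq_le_one_iff_abs_le_one, a_sq p (H X) hp0 hp1 b2]
      have : (⌊H X⌋₊ : ℝ) / H X ≤ 1 := by
        rw [div_le_one (by linarith)]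
        exact Nat.floor_le (by linarith)
      have h0 : 0 ≤ (⌊H X⌋₊ : ℝ) / H X := by positivity
      nlinarith
    have h3 := hK ⌊H X⌋₊ b3 ⌊X⌋₊ b4 (rr p (H X)) hr s t (by
      rw [abs_mul]
      have := mul_le_of_le_one_left hs0 ha1
      linarith) (by
      rw [abs_mul]
      have := mul_le_of_le_one_left ht0 ha1
      linarith)
    rw [dist_zero_right]
    linarith
  have := hdiff.add hmain
  simpa using this

/-- the mass of the subsets `D` for which the law of the sum is not close to the gaussian law -/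
noncomputable def bad (p H η X : ℝ) : ℝ :=
  ∑ D ∈ (Icc 1 ⌊H⌋₊).powerset, (open Classical in
    if ∀ t, |df (Icc ⌊X⌋₊ (2 * ⌊X⌋₊)) (SD (rr p H) D) t - Phi t| ≤ η then 0 else wt p ⌊H⌋₊ D)

/-- the Gaussian law for the whole windows gives the one for most subsets -/
theorem to_sub (p : ℝ) (hp0 : 0 < p) (hp1 : p < 1) (H : ℝ → ℝ) (h1 : Tendsto H atTop atTop)
    (h2 : Tendsto (fun X => H X / X) atTop (𝓝 0))
    (h : ∀ τ : ℝ, Tendsto (fun X : ℝ => ch (Icc ⌊X⌋₊ (2 * ⌊X⌋₊)) (fun n => ML ⌊H X⌋₊ n / nrm (H X)) τ) atTop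
      (𝓝 ((Real.exp (-(τ ^ 2 / 2)) : ℝ) : ℂ))) (η : ℝ) (hη : 0 < η) :
    ∀ᶠ X : ℝ in atTop, bad p (H X) η X ≤ η := by
  by_contra hcon
  rw [not_eventually] at hcon
  obtain ⟨x, hx, hbad⟩ := exists_seq_forall_of_frequently hcon
  obtain ⟨M, hM⟩ := law2 (fun m => (Icc 1 ⌊H (x m)⌋₊).powerset) (fun m => wt p ⌊H (x m)⌋₊)
    (fun m D _ => wt_nonneg _ hp0.le hp1.le _ _) (fun m => wt_sum _ _) (fun m => Icc ⌊x m⌋₊ (2 * ⌊x m⌋₊))
    (fun m => by simp; omega) (fun m D => SD (rr p (H (x m))) D)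
    (fun s t => (prod_tendsto p hp0 hp1 H h1 h2 h s t).comp hx) η hη
  exact hbad M (hM M le_rfl)

/-- the Gaussian law for a positive proportion of the subsets gives the one for the whole windows -/
theorem of_sub (p : ℝ) (hp0 : 0 < p) (hp1 : p < 1) (H : ℝ → ℝ) (h1 : Tendsto H atTop atTop)
    (h2 : Tendsto (fun X => H X / X) atTop (𝓝 0)) (κ : ℝ) (hκ : 0 < κ)
    (h : ∀ η : ℝ, 0 < η → ∀ᶠ X : ℝ in atTop, bad p (H X) η X ≤ 1 - κ) (τ : ℝ) :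
    Tendsto (fun X : ℝ => ch (Icc ⌊X⌋₊ (2 * ⌊X⌋₊)) (fun n => ML ⌊H X⌋₊ n / nrm (H X)) τ) atTop
      (𝓝 ((Real.exp (-(τ ^ 2 / 2)) : ℝ) : ℂ)) := by
  have hq : 0 < 1 - p := by linarith
  have hsp := Real.sqrt_pos.2 hp0
  obtain ⟨s, hs⟩ : ∃ s : ℝ, s = τ / Real.sqrt p := ⟨_, rfl⟩
  have hsτ : Real.sqrt p * s = τ := by rw [hs]; field_simp
  have hs2 : p * s ^ 2 = τ ^ 2 := by
    rw [← hsτ, mul_pow, Real.sq_sqrt hp0.le]
  have hfl : Tendsto (fun X => (⌊H X⌋₊ : ℝ) / H X) atTop (𝓝 1) := (tendsto_nat_floor_div_atTop (R := ℝ)).comp h1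
  -- the deterministic factor
  obtain ⟨g, hg⟩ : ∃ g : ℝ → ℝ, ∀ X, g X = (1 - p) * (⌊H X⌋₊ / H X) * s ^ 2 / 2 := ⟨_, fun _ => rfl⟩
  have hgl : Tendsto g atTop (𝓝 ((1 - p) * 1 * s ^ 2 / 2)) := by
    have : Tendsto (fun X => (1 - p) * (⌊H X⌋₊ / H X) * s ^ 2 / 2) atTop (𝓝 ((1 - p) * 1 * s ^ 2 / 2)) :=
      ((hfl.const_mul _).mul_const _).div_const _
    exact this.congr (fun X => (hg X).symm)
  -- closeness for the product
  have key : ∀ δ : ℝ, 0 < δ → ∀ᶠ X : ℝ in atTop,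
      ‖((Real.exp (-(g X)) : ℝ) : ℂ) * ch (Icc ⌊X⌋₊ (2 * ⌊X⌋₊)) (fun n => ML ⌊H X⌋₊ n / nrm (H X)) τ -
        ((Real.exp (-(s ^ 2 / 2)) : ℝ) : ℂ)‖ ≤ 2 * δ := by
    intro δ hδ
    obtain ⟨η, hη, hclose⟩ := close_char s δ hδ
    obtain ⟨T, hT⟩ : ∃ T : ℝ, T = 1 + |s| := ⟨_, rfl⟩
    have hs0 := abs_nonneg s
    obtain ⟨γ, hγ⟩ : ∃ γ : ℝ, γ = κ * δ ^ 2 / 6 := ⟨_, rfl⟩
    have hγ0 : 0 < γ := by rw [hγ]; positivity
    obtain ⟨K, hK1, hK⟩ := core p hp0 hp1 T γ (by linarith) hγ0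
    filter_upwards [ev_all p hp0 hp1 H h1 h2 K, h η hη] with X hX hbX
    obtain ⟨b1, b2, b3, b4⟩ := hX
    have hr := rr_pos p (H X) hp0 (by linarith)
    obtain ⟨A, hA⟩ : ∃ A : Finset ℕ, A = Icc ⌊X⌋₊ (2 * ⌊X⌋₊) := ⟨_, rfl⟩
    have hAn : A.Nonempty := by rw [hA]; simp; omega
    have ha1 : |den p ⌊H X⌋₊ (fun _ => 1) / rr p (H X)| ≤ 1 := by
      rw [← sq_le_one_iff_abs_le_one, a_sq p (H X) hp0 hp1 b2]
      have : (⌊H X⌋₊ : ℝ) / H X ≤ 1 := by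
        rw [div_le_one (by linarith)]
        exact Nat.floor_le (by linarith)
      have h0 : 0 ≤ (⌊H X⌋₊ : ℝ) / H X := by positivity
      nlinarith
    have hst : |den p ⌊H X⌋₊ (fun _ => 1) / rr p (H X) * s| ≤ T := by
      rw [abs_mul]
      have := mul_le_of_le_one_left hs0 ha1
      linarith
    have q1 := hK ⌊H X⌋₊ b3 ⌊X⌋₊ b4 (rr p (H X)) hr s (-s) hst (by rw [mul_neg, abs_neg]; exact hst)
    have q2 := hK ⌊H X⌋₊ b3 ⌊X⌋₊ b4 (rr p (H X)) hr s 0 hst (by simp; linarith)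
    have hgX : (den p ⌊H X⌋₊ (fun _ => 1) / rr p (H X) * s) ^ 2 / 2 = g X := by
      rw [hg, mul_pow, a_sq p (H X) hp0 hp1 b2]
    rw [← hA] at q1 q2
    have hpch := p_ch p (H X) hp0 b2 A ⌊H X⌋₊ s
    rw [hsτ] at hpch
    obtain ⟨c, hc⟩ : ∃ c : ℂ, c = ch A (fun n => ML ⌊H X⌋₊ n / nrm (H X)) τ := ⟨_, rfl⟩
    obtain ⟨ψ, hψ⟩ : ∃ ψ : ℂ, ψ = ((Real.exp (-(g X)) : ℝ) : ℂ) * c := ⟨_, rfl⟩
    rw [← hc] at hpch
    have r1 : ((Real.exp (-(((den p ⌊H X⌋₊ (fun _ => 1) / rr p (H X) * s) ^ 2 +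
        (den p ⌊H X⌋₊ (fun _ => 1) / rr p (H X) * -s) ^ 2) / 2)) : ℝ) : ℂ) *
        (ch A (fun n => p * ML ⌊H X⌋₊ n / rr p (H X)) s * ch A (fun n => p * ML ⌊H X⌋₊ n / rr p (H X)) (-s)) =
        ψ * (starRingEnd ℂ) ψ := by
      rw [ch_neg, hpch, hψ, map_mul, Complex.conj_ofReal]
      have : Real.exp (-(((den p ⌊H X⌋₊ (fun _ => 1) / rr p (H X) * s) ^ 2 +
        (den p ⌊H X⌋₊ (fun _ => 1) / rr p (H X) * -s) ^ 2) / 2)) = Real.exp (-(g X)) * Real.exp (-(g X)) := by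
        rw [← Real.exp_add, ← hgX]
        congr 1
        ring
      rw [this]
      push_cast
      ring
    have r2 : ((Real.exp (-(((den p ⌊H X⌋₊ (fun _ => 1) / rr p (H X) * s) ^ 2 +
        (den p ⌊H X⌋₊ (fun _ => 1) / rr p (H X) * 0) ^ 2) / 2)) : ℝ) : ℂ) *
        (ch A (fun n => p * ML ⌊H X⌋₊ n / rr p (H X)) s * ch A (fun n => p * ML ⌊H X⌋₊ n / rr p (H X)) 0) = ψ := by
      rw [ch_zero A hAn, hpch, hψ, mul_one, mul_zero]
      have : ((den p ⌊H X⌋₊ (fun _ => 1) / rr p (H X) * s) ^ 2 + (0 : ℝ) ^ 2) / 2 = g X := by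
        rw [← hgX]
        ring
      rw [this]
    rw [r1] at q1
    rw [r2] at q2
    -- the mean square
    obtain ⟨w, hw⟩ : ∃ w : Finset ℕ → ℝ, ∀ D, w D = wt p ⌊H X⌋₊ D := ⟨_, fun _ => rfl⟩
    obtain ⟨φ, hφ⟩ : ∃ φ : Finset ℕ → ℂ, ∀ D, φ D = ch A (SD (rr p (H X)) D) s := ⟨_, fun _ => rfl⟩
    have hw0 : ∀ D, 0 ≤ w D := fun D => by rw [hw]; exact wt_nonneg p hp0.le hp1.le _ _
    have hw1 : ∑ D ∈ (Icc 1 ⌊H X⌋₊).powerset, w D = 1 := by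
      simp only [hw]
      exact wt_sum p _
    have q1' : ‖∑ D ∈ (Icc 1 ⌊H X⌋₊).powerset, (w D : ℂ) * (φ D * (starRingEnd ℂ) (φ D)) - ψ * (starRingEnd ℂ) ψ‖ ≤ γ := by
      refine le_trans (le_of_eq ?_) q1
      congr 2
      apply sum_congr rfl
      intro D _
      rw [hw, hφ, ch_neg]
    have q2' : ‖∑ D ∈ (Icc 1 ⌊H X⌋₊).powerset, (w D : ℂ) * φ D - ψ‖ ≤ γ := by
      refine le_trans (le_of_eq ?_) q2
      congr 2
      apply sum_congr rfl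
      intro D _
      rw [hw, hφ, ch_zero A hAn, mul_one]
    have hψ1 : ‖ψ‖ ≤ 1 := by
      rw [hψ, norm_mul, Complex.norm_real, Real.norm_of_nonneg (Real.exp_pos _).le]
      have : Real.exp (-(g X)) ≤ 1 := by
        rw [Real.exp_le_one_iff, hg]
        have : 0 ≤ (1 - p) * ((⌊H X⌋₊ : ℝ) / H X) * s ^ 2 / 2 := by
          have : 0 ≤ (⌊H X⌋₊ : ℝ) / H X := by
            apply div_nonneg (by positivity) (by linarith)
          positivity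
        linarith
      have h3 : ‖c‖ ≤ 1 := by rw [hc]; exact ch_norm _ _ _
      exact mul_le_one₀ this (norm_nonneg _) h3
    have hms : ∑ D ∈ (Icc 1 ⌊H X⌋₊).powerset, w D * ‖φ D - ψ‖ ^ 2 ≤ 3 * γ := by
      have e1 : ((∑ D ∈ (Icc 1 ⌊H X⌋₊).powerset, w D * ‖φ D - ψ‖ ^ 2 : ℝ) : ℂ) =
          (∑ D ∈ (Icc 1 ⌊H X⌋₊).powerset, (w D : ℂ) * (φ D * (starRingEnd ℂ) (φ D)) - ψ * (starRingEnd ℂ) ψ) -
          (∑ D ∈ (Icc 1 ⌊H X⌋₊).powerset, (w D : ℂ) * φ D - ψ) * (starRingEnd ℂ) ψ -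
          (starRingEnd ℂ) (∑ D ∈ (Icc 1 ⌊H X⌋₊).powerset, (w D : ℂ) * φ D - ψ) * ψ := by
        have e2 : ∀ D, (((w D * ‖φ D - ψ‖ ^ 2 : ℝ)) : ℂ) = (w D : ℂ) * (φ D * (starRingEnd ℂ) (φ D)) -
            ((w D : ℂ) * φ D) * (starRingEnd ℂ) ψ - ((w D : ℂ) * (starRingEnd ℂ) (φ D)) * ψ +
            (w D : ℂ) * (ψ * (starRingEnd ℂ) ψ) := by
          intro D
          have e3 : ((‖φ D - ψ‖ ^ 2 : ℝ) : ℂ) = (φ D - ψ) * (starRingEnd ℂ) (φ D - ψ) := by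
            rw [Complex.mul_conj, Complex.normSq_eq_norm_sq]
          rw [Complex.ofReal_mul, e3, map_sub]
          ring
        rw [Complex.ofReal_sum]
        simp only [e2]
        rw [sum_add_distrib, sum_sub_distrib, sum_sub_distrib, ← sum_mul, ← sum_mul, ← sum_mul]
        have e4 : ∑ D ∈ (Icc 1 ⌊H X⌋₊).powerset, (w D : ℂ) = 1 := by
          rw [← Complex.ofReal_sum, hw1, Complex.ofReal_one]
        have e5 : ∑ D ∈ (Icc 1 ⌊H X⌋₊).powerset, (w D : ℂ) * (starRingEnd ℂ) (φ D) =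
            (starRingEnd ℂ) (∑ D ∈ (Icc 1 ⌊H X⌋₊).powerset, (w D : ℂ) * φ D) := by
          rw [map_sum]
          apply sum_congr rfl
          intro D _
          rw [map_mul, Complex.conj_ofReal]
        rw [e4, e5, map_sub]
        ring
      have e6 : ‖((∑ D ∈ (Icc 1 ⌊H X⌋₊).powerset, w D * ‖φ D - ψ‖ ^ 2 : ℝ) : ℂ)‖ ≤ 3 * γ := by
        rw [e1]
        refine (norm_sub_le _ _).trans ?_
        have f1 : ‖(∑ D ∈ (Icc 1 ⌊H X⌋₊).powerset, (w D : ℂ) * φ D - ψ) * (starRingEnd ℂ) ψ‖ ≤ γ := by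
          rw [norm_mul, RCLike.norm_conj]
          exact (mul_le_of_le_one_right (norm_nonneg _) hψ1).trans q2'
        have f2 : ‖(starRingEnd ℂ) (∑ D ∈ (Icc 1 ⌊H X⌋₊).powerset, (w D : ℂ) * φ D - ψ) * ψ‖ ≤ γ := by
          rw [norm_mul, RCLike.norm_conj]
          exact (mul_le_of_le_one_right (norm_nonneg _) hψ1).trans q2'
        have f3 := norm_sub_le (∑ D ∈ (Icc 1 ⌊H X⌋₊).powerset, (w D : ℂ) * (φ D * (starRingEnd ℂ) (φ D)) - ψ * (starRingEnd ℂ) ψ)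
          ((∑ D ∈ (Icc 1 ⌊H X⌋₊).powerset, (w D : ℂ) * φ D - ψ) * (starRingEnd ℂ) ψ)
        linarith
      rw [Complex.norm_real] at e6
      exact (le_abs_self _).trans e6
    -- there is a good subset
    have hex : ∃ D ∈ (Icc 1 ⌊H X⌋₊).powerset, (∀ t, |df A (SD (rr p (H X)) D) t - Phi t| ≤ η) ∧ ‖φ D - ψ‖ ≤ δ := by
      by_contra hno
      push Not at hno
      have h3 : ∑ D ∈ (Icc 1 ⌊H X⌋₊).powerset, w D ≤ bad p (H X) η X +
          ∑ D ∈ (Icc 1 ⌊H X⌋₊).powerset, w D * ‖φ D - ψ‖ ^ 2 / δ ^ 2 := by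
        unfold bad
        rw [← sum_add_distrib]
        apply sum_le_sum
        intro D hD
        rw [← hA, ← hw]
        split_ifs with hcl
        · have h4 := hno D hD hcl
          rw [zero_add, le_div_iff₀ (by positivity)]
          exact mul_le_mul_of_nonneg_left (pow_le_pow_left₀ hδ.le h4.le 2) (hw0 D)
        · have : 0 ≤ w D * ‖φ D - ψ‖ ^ 2 / δ ^ 2 := div_nonneg (mul_nonneg (hw0 D) (by positivity)) (by positivity)
          linarith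
      rw [hw1, ← sum_div] at h3
      have h5 : (∑ D ∈ (Icc 1 ⌊H X⌋₊).powerset, w D * ‖φ D - ψ‖ ^ 2) / δ ^ 2 ≤ κ / 2 := by
        rw [div_le_iff₀ (by positivity)]
        rw [hγ] at hms
        linarith
      linarith
    obtain ⟨D, _, hD1, hD2⟩ := hex
    have h6 := hclose A hAn (SD (rr p (H X)) D) hD1
    rw [← hφ] at h6
    rw [← hA, ← hc, ← hψ]
    calc ‖ψ - ((Real.exp (-(s ^ 2 / 2)) : ℝ) : ℂ)‖ ≤ ‖ψ - φ D‖ + ‖φ D - ((Real.exp (-(s ^ 2 / 2)) : ℝ) : ℂ)‖ :=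
          norm_sub_le_norm_sub_add_norm_sub _ _ _
      _ ≤ 2 * δ := by
          rw [norm_sub_rev]
          linarith
  -- conclusion
  have hprod : Tendsto (fun X : ℝ => ((Real.exp (-(g X)) : ℝ) : ℂ) *
      ch (Icc ⌊X⌋₊ (2 * ⌊X⌋₊)) (fun n => ML ⌊H X⌋₊ n / nrm (H X)) τ) atTop (𝓝 ((Real.exp (-(s ^ 2 / 2)) : ℝ) : ℂ)) := by
    rw [Metric.tendsto_nhds]
    intro δ hδ
    filter_upwards [key (δ / 4) (by positivity)] with X hX
    rw [dist_eq_norm]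
    linarith
  have hexp : Tendsto (fun X : ℝ => ((Real.exp (g X) : ℝ) : ℂ)) atTop (𝓝 ((Real.exp ((1 - p) * 1 * s ^ 2 / 2) : ℝ) : ℂ)) :=
    (Complex.continuous_ofReal.tendsto _).comp ((Real.continuous_exp.tendsto _).comp hgl)
  have hfin := hexp.mul hprod
  have e1 : ((Real.exp ((1 - p) * 1 * s ^ 2 / 2) : ℝ) : ℂ) * ((Real.exp (-(s ^ 2 / 2)) : ℝ) : ℂ) =
      ((Real.exp (-(τ ^ 2 / 2)) : ℝ) : ℂ) := by
    rw [← Complex.ofReal_mul, ← Real.exp_add, ← hs2]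
    congr 2
    ring
  rw [e1] at hfin
  refine hfin.congr (fun X => ?_)
  rw [← mul_assoc, ← Complex.ofReal_mul, ← Real.exp_add, add_neg_cancel, Real.exp_zero, Complex.ofReal_one, one_mul]

end Pool.Agent.J4.H36.MG
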