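import Pool.Agent.J4.H36.MG.Law2

set_option autoImplicit false

/-! Distribution functions, characteristic functions, and the integrals over real centres of windows. -/

namespace Pool.Agent.J4.H36.MG
open Finset Filter Topology Complex MeasureTheory ProbabilityTheory
open Pool.Agent.J4.H66.MG (emp emp_prob emp_char emp_Iic Phi Phi_cont Phi_mono Phi_surj Phi_mem)

/-- the standard gaussian law as a probability measure -/
noncomputable def GG : ProbabilityMeasure ℝ := ⟨gaussianReal 0 1, inferInstance⟩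

lemma GG_coe : (GG : Measure ℝ) = gaussianReal 0 1 := rfl

lemma GG_char (τ : ℝ) : charFun (GG : Measure ℝ) τ = ((Real.exp (-(τ ^ 2 / 2)) : ℝ) : ℂ) := by
  rw [GG_coe, charFun_gaussianReal]
  push_cast
  congr 1
  ring

/-- pointwise convergence of the distribution functions gives weak convergence -/
lemma cdf_weak {ι : Type*} (l : Filter ι) [l.IsCountablyGenerated] (P : ι → ProbabilityMeasure ℝ)
    (h : ∀ t : ℝ, Tendsto (fun i => (P i : Measure ℝ).real (Set.Iic t)) l (𝓝 (Phi t))) : Tendsto P l (𝓝 GG) := by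
  have hS : IsPiSystem {s : Set ℝ | ∃ a b : ℝ, s = Set.Ioc a b} := by
    rintro _ ⟨a, b, rfl⟩ _ ⟨c, d, rfl⟩ _
    exact ⟨a ⊔ c, b ⊓ d, Set.Ioc_inter_Ioc⟩
  refine hS.tendsto_probabilityMeasure_of_tendsto_of_mem ?_ ?_ ?_
  · rintro _ ⟨a, b, rfl⟩
    exact measurableSet_Ioc
  · intro u hu x hx
    obtain ⟨r, hr, hru⟩ := Metric.isOpen_iff.1 hu x hx
    refine ⟨Set.Ioc (x - r / 2) (x + r / 2), ⟨_, _, rfl⟩, ?_, ?_⟩
    · exact Ioc_mem_nhds (by linarith) (by linarith)
    · intro y hy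
      apply hru
      rw [Metric.mem_ball, Real.dist_eq, abs_lt]
      constructor <;> linarith [hy.1, hy.2]
  · rintro _ ⟨a, b, rfl⟩
    have key : ∀ (Q : ProbabilityMeasure ℝ), a ≤ b → ((Q (Set.Ioc a b) : NNReal) : ℝ) =
        (Q : Measure ℝ).real (Set.Iic b) - (Q : Measure ℝ).real (Set.Iic a) := by
      intro Q hab
      have e1 : Set.Ioc a b = Set.Iic b \ Set.Iic a := by
        ext y
        simp only [Set.mem_Ioc, Set.mem_sdiff, Set.mem_Iic, not_le]
        tauto
      have e2 : ((Q (Set.Ioc a b) : NNReal) : ℝ) = (Q : Measure ℝ).real (Set.Ioc a b) := rfl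
      rw [e2, e1, measureReal_sdiff (Set.Iic_subset_Iic.2 hab) measurableSet_Iic]
    rcases le_total a b with hab | hab
    · rw [← NNReal.tendsto_coe]
      simp only [key _ hab]
      exact (h b).sub (h a)
    · rw [Set.Ioc_eq_empty (by linarith)]
      simp only [ProbabilityMeasure.coeFn_empty]
      exact tendsto_const_nhds

/-- convergence of the characteristic functions along any countably generated filter gives weak convergence -/
lemma char_weak {ι : Type*} (l : Filter ι) [l.IsCountablyGenerated] (P : ι → ProbabilityMeasure ℝ)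
    (h : ∀ τ : ℝ, Tendsto (fun i => charFun (P i : Measure ℝ) τ) l (𝓝 ((Real.exp (-(τ ^ 2 / 2)) : ℝ) : ℂ))) :
    Tendsto P l (𝓝 GG) := by
  refine tendsto_of_seq_tendsto fun x hx => ?_
  refine ProbabilityMeasure.tendsto_of_tendsto_charFun fun τ => ?_
  rw [GG_char]
  exact (h τ).comp hx

lemma weak_char {ι : Type*} (l : Filter ι) [l.IsCountablyGenerated] (P : ι → ProbabilityMeasure ℝ)
    (h : Tendsto P l (𝓝 GG)) (τ : ℝ) :
    Tendsto (fun i => charFun (P i : Measure ℝ) τ) l (𝓝 ((Real.exp (-(τ ^ 2 / 2)) : ℝ) : ℂ)) := by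
  refine tendsto_of_seq_tendsto fun x hx => ?_
  have h1 := (ProbabilityMeasure.tendsto_iff_tendsto_charFun.1 (h.comp hx)) τ
  rw [GG_char] at h1
  exact h1

lemma weak_cdf {ι : Type*} (l : Filter ι) (P : ι → ProbabilityMeasure ℝ)
    (h : Tendsto P l (𝓝 GG)) (t : ℝ) :
    Tendsto (fun i => (P i : Measure ℝ).real (Set.Iic t)) l (𝓝 (Phi t)) := by
  have h1 := ProbabilityMeasure.tendsto_measure_of_null_frontier_of_tendsto' h (E := Set.Iic t) (by
    have := nullSingletonClass_gaussianReal (μ := 0) (v := 1) one_ne_zero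
    rw [GG_coe, frontier_Iic]
    simp)
  exact (ENNReal.tendsto_toReal (measure_ne_top (GG : Measure ℝ) (Set.Iic t))).comp h1

/-- the empirical law as a probability measure -/
noncomputable def EP (A : Finset ℕ) (hA : A.Nonempty) (Z : ℕ → ℝ) : ProbabilityMeasure ℝ := ⟨emp A Z, emp_prob A hA Z⟩

lemma EP_char (A : Finset ℕ) (hA : A.Nonempty) (Z : ℕ → ℝ) (τ : ℝ) : charFun (EP A hA Z : Measure ℝ) τ = ch A Z τ :=
  emp_char A Z τ

lemma EP_df (A : Finset ℕ) (hA : A.Nonempty) (Z : ℕ → ℝ) (t : ℝ) : (EP A hA Z : Measure ℝ).real (Set.Iic t) = df A Z t :=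
  emp_Iic A Z t

/-- closeness of the distribution function gives closeness of the characteristic function -/
lemma close_char (τ δ : ℝ) (hδ : 0 < δ) : ∃ η : ℝ, 0 < η ∧ ∀ (A : Finset ℕ) (_ : A.Nonempty) (Z : ℕ → ℝ),
    (∀ t, |df A Z t - Phi t| ≤ η) → ‖ch A Z τ - ((Real.exp (-(τ ^ 2 / 2)) : ℝ) : ℂ)‖ ≤ δ := by
  by_contra hcon
  push Not at hcon
  have hc : ∀ m : ℕ, ∃ (A : Finset ℕ) (_ : A.Nonempty) (Z : ℕ → ℝ), (∀ t, |df A Z t - Phi t| ≤ 1 / ((m : ℝ) + 1)) ∧
      δ < ‖ch A Z τ - ((Real.exp (-(τ ^ 2 / 2)) : ℝ) : ℂ)‖ := by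
    intro m
    obtain ⟨A, hA, Z, h1, h2⟩ := hcon (1 / ((m : ℝ) + 1)) (by positivity)
    exact ⟨A, hA, Z, h1, h2⟩
  choose A hA Z h1 h2 using hc
  have h3 : Tendsto (fun m => EP (A m) (hA m) (Z m)) atTop (𝓝 GG) := by
    apply cdf_weak
    intro t
    simp only [EP_df]
    rw [tendsto_iff_dist_tendsto_zero]
    refine squeeze_zero (fun _ => dist_nonneg) (fun m => ?_) (tendsto_one_div_add_atTop_nhds_zero_nat (𝕜 := ℝ))
    rw [Real.dist_eq]
    exact h1 m t
  have h4 := weak_char _ _ h3 τ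
  simp only [EP_char] at h4
  obtain ⟨M, hM⟩ := (Metric.tendsto_atTop.1 h4) δ hδ
  have h5 := hM M le_rfl
  rw [dist_eq_norm] at h5
  exact absurd (h2 M) (not_lt.2 h5.le)

end Pool.Agent.J4.H36.MG
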