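import Pool.Agent.J4.H36.MG.Weak

set_option autoImplicit false

/-! Real centres of windows and integers. -/

namespace Pool.Agent.J4.H36.MG
open Finset Filter Topology Complex MeasureTheory ProbabilityTheory
open Pool.Agent.J4.H66.MG (mu mu_abs Phi)

/-- the sum of `μ(n)` over `|n - x| < H/2` -/
noncomputable def Wf (x H : ℝ) : ℝ :=
  ∑ n ∈ (Finset.range (⌊x + H⌋₊ + 1)).filter (fun n : ℕ => |(n : ℝ) - x| < H / 2),
    ((ArithmeticFunction.moebius n : ℤ) : ℝ)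

/-- the same sum over a fixed range -/
noncomputable def Wk (K : ℕ) (H x : ℝ) : ℝ := ∑ n ∈ Finset.range K, if |(n : ℝ) - x| < H / 2 then mu n else 0

/-- the sum of `μ` over `(n, n + L]` -/
noncomputable def ML (L n : ℕ) : ℝ := ∑ d ∈ Icc 1 L, mu (n + d)

lemma Wk_meas (K : ℕ) (H : ℝ) : Measurable (Wk K H) := by
  unfold Wk
  apply Finset.measurable_sum
  intro n _
  apply Measurable.ite _ measurable_const measurable_const
  exact measurableSet_lt (by fun_prop) measurable_const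

lemma Wf_eq_Wk (K : ℕ) (x H B : ℝ) (hH : 0 ≤ H) (hB : x ≤ B) (hK : ⌊B + H⌋₊ + 1 ≤ K) : Wf x H = Wk K H x := by
  unfold Wf Wk
  rw [← sum_filter]
  have : (Finset.range (⌊x + H⌋₊ + 1)).filter (fun n : ℕ => |(n : ℝ) - x| < H / 2) =
      (Finset.range K).filter (fun n : ℕ => |(n : ℝ) - x| < H / 2) := by
    ext n
    simp only [mem_filter, mem_range]
    constructor
    · rintro ⟨h1, h2⟩
      refine ⟨?_, h2⟩
      have : ⌊x + H⌋₊ ≤ ⌊B + H⌋₊ := Nat.floor_le_floor (by linarith)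
      omega
    · rintro ⟨h1, h2⟩
      refine ⟨?_, h2⟩
      have h3 := (abs_lt.1 h2).2
      have : n ≤ ⌊x + H⌋₊ := Nat.le_floor (by linarith)
      omega
  rw [this]
  rfl

lemma win (x H : ℝ) (hH : 1 ≤ H) (hx : H ≤ x) : |Wf x H - ML ⌊H⌋₊ ⌊x - H / 2⌋₊| ≤ 2 := by
  classical
  set n := ⌊x - H / 2⌋₊ with hn
  set L := ⌊H⌋₊ with hL
  have hn1 : (n : ℝ) ≤ x - H / 2 := Nat.floor_le (by linarith)
  have hn2 : x - H / 2 < n + 1 := Nat.lt_floor_add_one _
  have hL1 : (L : ℝ) ≤ H := Nat.floor_le (by linarith)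
  have hL2 : H < L + 1 := Nat.lt_floor_add_one _
  obtain ⟨S, hS⟩ : ∃ S : Finset ℕ, S = (Finset.range (⌊x + H⌋₊ + 1)).filter (fun n : ℕ => |(n : ℝ) - x| < H / 2) := ⟨_, rfl⟩
  have hSm : ∀ m : ℕ, m ∈ S ↔ (x - H / 2 < m ∧ (m : ℝ) < x + H / 2) := by
    intro m
    rw [hS, mem_filter, mem_range, abs_lt]
    constructor
    · rintro ⟨_, h1, h2⟩
      constructor <;> linarith
    · rintro ⟨h1, h2⟩
      refine ⟨?_, by linarith, by linarith⟩
      have : m ≤ ⌊x + H⌋₊ := Nat.le_floor (by linarith)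
      omega
  have e1 : Wf x H = ∑ m ∈ S, mu m := by
    rw [hS]
    rfl
  have e2 : ML L n = ∑ m ∈ Icc (n + 1) (n + L), mu m := by
    unfold ML
    have : Icc (n + 1) (n + L) = (Icc 1 L).image (fun d => n + d) := by
      rw [Finset.image_add_left_Icc]
    rw [this, sum_image (fun a _ b _ h => by simpa using h)]
  rw [e1, e2, ← Finset.sum_sdiff_sub_sum_sdiff]
  have c1 : S \ Icc (n + 1) (n + L) ⊆ {n + L + 1} := by
    intro m hm
    rw [Finset.mem_sdiff, Finset.mem_Icc, hSm] at hm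
    obtain ⟨⟨h1, h2⟩, h3⟩ := hm
    have h4 : n + 1 ≤ m := by
      have : (n : ℝ) < m := by linarith
      exact_mod_cast this
    have h5 : m < n + L + 2 := by
      have : (m : ℝ) < ((n + L + 2 : ℕ) : ℝ) := by push_cast; linarith
      exact_mod_cast this
    rw [mem_singleton]
    omega
  have c2 : Icc (n + 1) (n + L) \ S ⊆ {n + L} := by
    intro m hm
    rw [Finset.mem_sdiff, Finset.mem_Icc, hSm] at hm
    obtain ⟨⟨h1, h2⟩, h3⟩ := hm
    rw [mem_singleton]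
    by_contra hne
    apply h3
    have h4 : m + 1 ≤ n + L := by omega
    have h5 : (m : ℝ) + 1 ≤ n + L := by exact_mod_cast h4
    have h6 : (n : ℝ) + 1 ≤ m := by exact_mod_cast h1
    constructor <;> linarith
  have d1 : |∑ m ∈ S \ Icc (n + 1) (n + L), mu m| ≤ 1 := by
    refine (abs_sum_le_sum_abs _ _).trans ((sum_le_sum (fun m _ => mu_abs m)).trans ?_)
    rw [sum_const, nsmul_eq_mul, mul_one]
    exact_mod_cast (card_le_card c1).trans (by simp)
  have d2 : |∑ m ∈ Icc (n + 1) (n + L) \ S, mu m| ≤ 1 := by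
    refine (abs_sum_le_sum_abs _ _).trans ((sum_le_sum (fun m _ => mu_abs m)).trans ?_)
    rw [sum_const, nsmul_eq_mul, mul_one]
    exact_mod_cast (card_le_card c2).trans (by simp)
  refine (abs_sub _ _).trans ?_
  linarith

lemma hfl_int (h : ℕ → ℂ) (hh : ∀ n, ‖h n‖ ≤ 1) (a b : ℝ) : IntervalIntegrable (fun y : ℝ => h ⌊y⌋₊) volume a b := by
  have hm : Measurable (fun y : ℝ => h ⌊y⌋₊) := (measurable_from_nat (f := h)).comp Nat.measurable_floor
  refine ⟨?_, ?_⟩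
  · exact Integrable.mono' (integrable_const (1 : ℝ)) hm.aestronglyMeasurable (Eventually.of_forall fun y => hh _)
  · exact Integrable.mono' (integrable_const (1 : ℝ)) hm.aestronglyMeasurable (Eventually.of_forall fun y => hh _)

lemma int_floor (h : ℕ → ℂ) (hh : ∀ n, ‖h n‖ ≤ 1) (a b : ℕ) (hab : a ≤ b) :
    ∫ y in (a : ℝ)..(b : ℝ), h ⌊y⌋₊ = ∑ n ∈ Ico a b, h n := by
  induction b, hab using Nat.le_induction with
  | base => simp
  | succ b hb ih =>
    rw [← intervalIntegral.integral_add_adjacent_intervals (hfl_int h hh a b) (hfl_int h hh b _), ih,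
      sum_Ico_succ_top hb]
    congr 1
    have : ∫ y in (b : ℝ)..((b + 1 : ℕ) : ℝ), h ⌊y⌋₊ = ∫ y in (b : ℝ)..((b + 1 : ℕ) : ℝ), h b := by
      apply intervalIntegral.integral_congr_ae
      have hne : ∀ᵐ y : ℝ, y ≠ ((b + 1 : ℕ) : ℝ) := by
        rw [ae_iff]
        simp
      filter_upwards [hne] with y hy hyI
      rw [Set.uIoc_of_le (by push_cast; linarith)] at hyI
      have : ⌊y⌋₊ = b := by
        rw [Nat.floor_eq_iff (by linarith [hyI.1, (Nat.cast_nonneg b : (0 : ℝ) ≤ b)])]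
        refine ⟨hyI.1.le, ?_⟩
        have h2 := lt_of_le_of_ne hyI.2 hy
        push_cast at h2
        linarith
      rw [this]
    rw [this, intervalIntegral.integral_const]
    push_cast
    simp

lemma norm_int_le (h : ℕ → ℂ) (hh : ∀ n, ‖h n‖ ≤ 1) (a b : ℝ) : ‖∫ y in a..b, h ⌊y⌋₊‖ ≤ |b - a| := by
  have := intervalIntegral.norm_integral_le_of_norm_le_const (a := a) (b := b) (C := 1) (f := fun y : ℝ => h ⌊y⌋₊)
    (fun y _ => hh _)
  simpa using this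

/-- the integral over the centres and the sum over the integers -/
lemma int_cmp (h : ℕ → ℂ) (hh : ∀ n, ‖h n‖ ≤ 1) (X H : ℝ) (hH : 0 ≤ H) (hX : 1 ≤ X) :
    ‖(∫ x in X..2 * X, h ⌊x - H / 2⌋₊) / (X : ℂ) - (∑ n ∈ Icc ⌊X⌋₊ (2 * ⌊X⌋₊), h n) / (#(Icc ⌊X⌋₊ (2 * ⌊X⌋₊)) : ℂ)‖ ≤
      (H + 3) / X := by
  set N := ⌊X⌋₊ with hN
  have hX0 : 0 < X := by linarith
  have hN1 : (N : ℝ) ≤ X := Nat.floor_le (by linarith)
  have hN2 : X < N + 1 := Nat.lt_floor_add_one _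
  have e1 : ∫ x in X..2 * X, h ⌊x - H / 2⌋₊ = ∫ y in (X - H / 2)..(2 * X - H / 2), h ⌊y⌋₊ :=
    intervalIntegral.integral_comp_sub_right (fun y => h ⌊y⌋₊) (H / 2)
  have e2 : ∑ n ∈ Icc N (2 * N), h n = ∫ y in (N : ℝ)..((2 * N + 1 : ℕ) : ℝ), h ⌊y⌋₊ := by
    rw [int_floor h hh N (2 * N + 1) (by omega)]
    rfl
  have hc : #(Icc N (2 * N)) = N + 1 := by rw [Nat.card_Icc]; omega
  obtain ⟨J, hJ⟩ : ∃ J : ℂ, J = ∑ n ∈ Icc N (2 * N), h n := ⟨_, rfl⟩
  have hJn : ‖J‖ ≤ N + 1 := by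
    rw [hJ]
    refine (norm_sum_le _ _).trans ((sum_le_sum (fun n _ => hh n)).trans ?_)
    rw [sum_const, hc, nsmul_eq_mul, mul_one]
    push_cast
    exact le_rfl
  have e3 : (∫ y in (X - H / 2)..(2 * X - H / 2), h ⌊y⌋₊) - J =
      (∫ y in (X - H / 2)..(N : ℝ), h ⌊y⌋₊) + ∫ y in ((2 * N + 1 : ℕ) : ℝ)..(2 * X - H / 2), h ⌊y⌋₊ := by
    rw [hJ, e2, ← intervalIntegral.integral_add_adjacent_intervals (hfl_int h hh (X - H / 2) N)
      (hfl_int h hh N (2 * X - H / 2)), ← intervalIntegral.integral_add_adjacent_intervals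
      (hfl_int h hh N ((2 * N + 1 : ℕ) : ℝ)) (hfl_int h hh ((2 * N + 1 : ℕ) : ℝ) (2 * X - H / 2))]
    ring
  have h4 : ‖(∫ y in (X - H / 2)..(2 * X - H / 2), h ⌊y⌋₊) - J‖ ≤ H + 2 := by
    rw [e3]
    refine (norm_add_le _ _).trans ((add_le_add (norm_int_le h hh _ _) (norm_int_le h hh _ _)).trans ?_)
    have a1 : |(N : ℝ) - (X - H / 2)| ≤ 1 + H / 2 := by
      rw [abs_le]; constructor <;> linarith
    have a2 : |2 * X - H / 2 - ((2 * N + 1 : ℕ) : ℝ)| ≤ 1 + H / 2 := by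
      rw [abs_le]; push_cast; constructor <;> linarith
    linarith
  rw [e1, hc, ← hJ]
  have hXc : (X : ℂ) ≠ 0 := by exact_mod_cast hX0.ne'
  have hNc : ((N : ℂ) + 1) ≠ 0 := by exact_mod_cast (Nat.succ_ne_zero N)
  have e5 : (∫ y in (X - H / 2)..(2 * X - H / 2), h ⌊y⌋₊) / (X : ℂ) - J / ((N + 1 : ℕ) : ℂ) =
      ((∫ y in (X - H / 2)..(2 * X - H / 2), h ⌊y⌋₊) - J) / (X : ℂ) +
      J / ((N + 1 : ℕ) : ℂ) * (((((N : ℝ) + 1 - X) / X : ℝ)) : ℂ) := by
    push_cast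
    field_simp
    ring
  rw [e5]
  refine (norm_add_le _ _).trans ?_
  have b1 : ‖((∫ y in (X - H / 2)..(2 * X - H / 2), h ⌊y⌋₊) - J) / (X : ℂ)‖ ≤ (H + 2) / X := by
    rw [norm_div, Complex.norm_real, Real.norm_of_nonneg hX0.le]
    exact div_le_div_of_nonneg_right h4 hX0.le
  have b2 : ‖J / ((N + 1 : ℕ) : ℂ) * (((((N : ℝ) + 1 - X) / X : ℝ)) : ℂ)‖ ≤ 1 / X := by
    rw [norm_mul, norm_div, Complex.norm_real, Complex.norm_natCast, Real.norm_eq_abs, abs_div, abs_of_pos hX0]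
    have c1 : ‖J‖ / ((N + 1 : ℕ) : ℝ) ≤ 1 := by
      rw [div_le_one (by positivity)]
      push_cast
      exact hJn
    have c2 : |(N : ℝ) + 1 - X| / X ≤ 1 / X := by
      apply div_le_div_of_nonneg_right _ hX0.le
      rw [abs_le]; constructor <;> linarith
    calc _ ≤ 1 * (1 / X) := mul_le_mul c1 c2 (by positivity) (by norm_num)
      _ = _ := one_mul _
  have : (H + 3) / X = (H + 2) / X + 1 / X := by ring
  linarith

lemma exp_lip (a b : ℝ) : ‖cexp ((a : ℂ) * I) - cexp ((b : ℂ) * I)‖ ≤ |a - b| := by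
  have e : cexp ((a : ℂ) * I) - cexp ((b : ℂ) * I) = cexp ((b : ℂ) * I) * (cexp (I * ((a - b : ℝ) : ℂ)) - 1) := by
    rw [mul_sub, ← Complex.exp_add]
    push_cast
    congr 1
    · congr 1
      ring
    · ring
  rw [e, norm_mul, Complex.norm_exp_ofReal_mul_I, one_mul]
  have := Real.norm_exp_I_mul_ofReal_sub_one_le (x := a - b)
  rwa [Real.norm_eq_abs] at this

end Pool.Agent.J4.H36.MG
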